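import Pool.Agent.H630CD.Model

/-!
# Graph colouring and circuits: the definitions
-/

open scoped Classical
open Finset

namespace H630CD

open H630VC H630XR H630SD

/-- the inputs of the circuits for graphs on `N` vertices: the bits of the adjacency matrix, and
real constants -/
def adjInputs (N : ℕ) : Set (SimpleGraph (Fin N) → ℝ) :=
  {f | (∃ x y, f = fun H => if H.Adj x y then 1 else 0) ∨ ∃ a : ℝ, f = fun _ => a}

/-- the inputs of Boolean circuits: the same bits, and the constants zero and one -/
def adjBits (N : ℕ) : Set (SimpleGraph (Fin N) → ℝ) :=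
  {f | (∃ x y, f = fun H => if H.Adj x y then 1 else 0) ∨ f = (fun _ => 0) ∨ f = fun _ => 1}

/-- the family `f r`, `r ∈ R`, of functions decides `G`-colourability (existence of a homomorphism to
`G`) of the graphs on `N` vertices with advantage `ξ`: on every graph at least a fraction `1/2 + ξ`
of the values is right, that is less than one if the graph is `G`-colourable and at least one
otherwise -/
def DecidesHom {V R : Type} [Fintype R] (G : SimpleGraph V) {N : ℕ} (ξ : ℝ)
    (f : R → SimpleGraph (Fin N) → ℝ) : Prop :=
  ∀ H : SimpleGraph (Fin N), (Nonempty (H →g G) →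
      (1 / 2 + ξ) * Fintype.card R ≤ (univ.filter fun r => f r H < 1).card) ∧
    (¬ Nonempty (H →g G) → (1 / 2 + ξ) * Fintype.card R ≤ (univ.filter fun r => 1 ≤ f r H).card)

end H630CD
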