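import Pool.Agent.H630CD.Model

/-!
# Sets of operations on a set
-/

open scoped Classical
open Finset

namespace H630CD

/-- a set of operations on `V` of each arity -/
abbrev Ops (V : Type) : Type := ∀ m : ℕ, Set ((Fin m → V) → V)

/-- the operations preserve the binary relation `E` -/
def Pres {V : Type} (C : Ops V) (E : V → V → Prop) : Prop :=
  ∀ m, ∀ f ∈ C m, ∀ x y : Fin m → V, (∀ i, E (x i) (y i)) → E (f x) (f y)

/-- the operations are idempotent -/
def Idem {V : Type} (C : Ops V) : Prop := ∀ m, ∀ f ∈ C m, ∀ v : V, f (fun _ => v) = v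

/-- the set `W` is closed under the operations -/
def Closed {V : Type} (C : Ops V) (W : Set V) : Prop :=
  ∀ m, ∀ f ∈ C m, ∀ x : Fin m → V, (∀ i, x i ∈ W) → f x ∈ W

/-- projections, and closed under composition -/
def Clone {V : Type} (C : Ops V) : Prop :=
  (∀ m (i : Fin m), (fun x : Fin m → V => x i) ∈ C m) ∧
  ∀ m n, ∀ f ∈ C m, ∀ g : Fin m → (Fin n → V) → V, (∀ i, g i ∈ C n) →
    (fun x => f fun i => g i x) ∈ C n

/-- the operations act as projections on a set with two classes: there are a set `B` and a two-valued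
function `c`, not constant on `B`, such that on `B` each operation has values in `B`, and the class of
the value is the class of the argument with number `i` -/
def Proj2 {V : Type} (C : Ops V) : Prop :=
  ∃ (B : Set V) (c : V → Bool), (∃ v ∈ B, c v = false) ∧ (∃ v ∈ B, c v = true) ∧
    ∀ m, ∀ f ∈ C m, ∃ i : Fin m, ∀ x : Fin m → V, (∀ j, x j ∈ B) → f x ∈ B ∧ c (f x) = c (x i)

/-- a closed walk of odd length -/
def OddWalk {V : Type} (E : V → V → Prop) : Prop :=
  ∃ (n : ℕ) (w : ℕ → V), (∀ i, i < 2 * n + 1 → E (w i) (w (i + 1))) ∧ w (2 * n + 1) = w 0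

/-- a triangle -/
def Tri {V : Type} (E : V → V → Prop) : Prop := ∃ u v w, E u v ∧ E v w ∧ E u w

/-- at most one common neighbour of adjacent elements -/
def DF {V : Type} (E : V → V → Prop) : Prop :=
  ∀ u v x y, E u v → E x u → E x v → E y u → E y v → x = y

/-- the restrictions of the operations to `W` -/
def subOps {V : Type} (C : Ops V) (W : Set V) : Ops W :=
  fun m => {g | ∃ f ∈ C m, ∀ x : Fin m → W, (g x : V) = f fun i => x i}

/-- the operations on the classes of `θ` -/
def quoOps {V : Type} (C : Ops V) (θ : Setoid V) : Ops (Quotient θ) :=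
  fun m => {g | ∃ f ∈ C m, ∀ x : Fin m → V, g (fun i => Quotient.mk θ (x i)) = Quotient.mk θ (f x)}

/-- the operations, coordinatewise, on a power -/
def powOps {V : Type} (C : Ops V) (K : Type) : Ops (K → V) :=
  fun m => {g | ∃ f ∈ C m, ∀ (x : Fin m → K → V) (k : K), g x k = f fun i => x i k}

/-- the idempotent operations `e ∘ f` on the fixed points of `e` -/
def coreOps {V : Type} (P : Ops V) (e : V → V) : Ops {d : V // e d = d} :=
  fun m => {g | (∃ f ∈ P m, ∀ x : Fin m → {d : V // e d = d}, (g x : V) = e (f fun i => x i)) ∧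
    ∀ v, g (fun _ => v) = v}

/-- a Siggers operation -/
def HasSiggers {V : Type} (C : Ops V) : Prop :=
  ∃ s ∈ C 6, ∀ x y z : V, s ![x, x, y, y, z, z] = s ![y, z, x, z, x, y]

/-- the unary operation `e` belongs to `P` -/
def Un {V : Type} (P : Ops V) (e : V → V) : Prop := (fun x : Fin 1 → V => e (x 0)) ∈ P 1

/-- `e` is an idempotent unary operation onto a core -/
def IsCore {V : Type} (P : Ops V) (e : V → V) : Prop :=
  Un P e ∧ (∀ d, e (e d) = e d) ∧ ∀ g, Un P g → ∃ g', Un P g' ∧ ∀ d, g' (g (e d)) = e d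

end H630CD
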