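import Pool.Agent.H630SD.Gad
import Pool.Agent.H630CD.Ops

/-! From parity systems to instances of a language without Siggers polymorphism (helper630) -/

open scoped Classical
open Finset

namespace H630CD

open H630VC H630XR H630GI H630SD

theorem colv_not_compl (β : Bool) (j j' : Fin 4) :
    ∃ v : Fin 3 → Bool, colv β j v = colv β j' v := by
  revert β j j'
  decide

theorem colv_surj (β : Bool) (j : Fin 4) (a : Bool) : ∃ v : Fin 3 → Bool, colv β j v = a := by
  revert β j a
  decide

theorem col_not_compl (β : Bool) (j j' : Fin 4) : ∃ s, col β j s = col β j' s := by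
  obtain ⟨v, hv⟩ := colv_not_compl β j j'
  exact ⟨en8.symm v, by simpa [col] using hv⟩

theorem col_surj (β : Bool) (j : Fin 4) (a : Bool) : ∃ s, col β j s = a := by
  obtain ⟨v, hv⟩ := colv_surj β j a
  exact ⟨en8.symm v, by simpa [col] using hv⟩

variable {D : Type} {k b : ℕ}

/-- the point with the values `d`, `d'` according to the column `j` -/
noncomputable def cpt (β : Bool) (j : Fin 4) (d d' : D) : Fin 8 → D :=
  fun s => if col β j s = true then d' else d

theorem cpt_apply (β : Bool) (j : Fin 4) (d d' : D) (s : Fin 8) :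
    cpt β j d d' s = if col β j s = true then d' else d := rfl

theorem cpt_const (β : Bool) (j : Fin 4) (d d' : D) (x : D) (h : cpt β j d d' = fun _ => x) :
    d = x ∧ d' = x := by
  obtain ⟨s, hs⟩ := col_surj β j false
  obtain ⟨s', hs'⟩ := col_surj β j true
  have h1 := congrFun h s
  have h2 := congrFun h s'
  simp only [cpt, hs, hs'] at h1 h2
  exact ⟨by simpa using h1, by simpa using h2⟩

theorem cpt_inj (β : Bool) (j j' : Fin 4) (d d' x x' : D) (hne : d ≠ d')
    (h : cpt β j d d' = cpt β j' x x') : j = j' ∧ d = x ∧ d' = x' := by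
  obtain ⟨s0, h0⟩ := col_not_compl β j j'
  have key : ∀ s, (if col β j s = true then d' else d) = if col β j' s = true then x' else x :=
    fun s => congrFun h s
  -- the value at the common point fixes the orientation
  cases hj : col β j s0 with
  | false =>
    have hj' : col β j' s0 = false := by rw [← h0]; exact hj
    have e1 : d = x := by
      have := key s0
      rw [hj, hj'] at this
      simpa using this
    have hcol : col β j = col β j' := by
      funext s
      by_contra hs
      have := key s
      cases h1 : col β j s <;> cases h2 : col β j' s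
      · exact hs (h1.trans h2.symm)
      · -- d = x'
        rw [h1, h2] at this
        have e2 : d = x' := by simpa using this
        obtain ⟨s1, hs1⟩ := col_surj β j true
        have h3 := key s1
        rw [hs1] at h3
        cases h4 : col β j' s1
        · rw [h4] at h3
          have : d' = x := by simpa using h3
          exact hne (e1.trans this.symm)
        · rw [h4] at h3
          have : d' = x' := by simpa using h3
          exact hne (e2.trans this.symm)
      · -- d' = x = d
        rw [h1, h2] at this
        have e2 : d' = x := by simpa using this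
        exact hne (e1.trans e2.symm)
      · exact hs (h1.trans h2.symm)
    refine ⟨col_inj β hcol, e1, ?_⟩
    obtain ⟨s1, hs1⟩ := col_surj β j true
    have h3 := key s1
    rw [← hcol, hs1] at h3
    simpa using h3
  | true =>
    have hj' : col β j' s0 = true := by rw [← h0]; exact hj
    have e1 : d' = x' := by
      have := key s0
      rw [hj, hj'] at this
      simpa using this
    have hcol : col β j = col β j' := by
      funext s
      by_contra hs
      have := key s
      cases h1 : col β j s <;> cases h2 : col β j' s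
      · exact hs (h1.trans h2.symm)
      · rw [h1, h2] at this
        have e2 : d = x' := by simpa using this
        exact hne (e2.trans e1.symm)
      · rw [h1, h2] at this
        have e2 : d' = x := by simpa using this
        obtain ⟨s1, hs1⟩ := col_surj β j false
        have h3 := key s1
        rw [hs1] at h3
        cases h4 : col β j' s1
        · rw [h4] at h3
          have : d = x := by simpa using h3
          exact hne (this.trans e2.symm)
        · rw [h4] at h3
          have : d = x' := by simpa using h3
          exact hne (this.trans e1.symm)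
      · exact hs (h1.trans h2.symm)
    refine ⟨col_inj β hcol, ?_, e1⟩
    obtain ⟨s1, hs1⟩ := col_surj β j false
    have h3 := key s1
    rw [← hcol, hs1] at h3
    simpa using h3

/-- the variables of a block: one for each value, one for each variable of the parity system and pair
of values, and a table for each clause -/
abbrev Wd (D : Type) (k b : ℕ) : Type :=
  Fin k × (D ⊕ ((Fin b × D × D) ⊕ (Cl (Fin b) 4 × (Fin 8 → D))))

/-- the variable at the point `p` of the table of `c` -/
noncomputable def loc (c : Cl (Fin b) 4) (p : Fin 8 → D) :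
    D ⊕ ((Fin b × D × D) ⊕ (Cl (Fin b) 4 × (Fin 8 → D))) :=
  if h : ∃ d, p = fun _ => d then .inl h.choose
  else if h : ∃ q : Fin 4 × D × D, p = cpt (vb c) q.1 q.2.1 q.2.2 then
    .inr (.inl ((c h.choose.1).1, h.choose.2.1, h.choose.2.2))
  else .inr (.inr (c, p))

/-- the variable for the pair `d`, `d'` -/
noncomputable def vx (u : Fin b) (d d' : D) :
    D ⊕ ((Fin b × D × D) ⊕ (Cl (Fin b) 4 × (Fin 8 → D))) :=
  if d = d' then .inl d else .inr (.inl (u, d, d'))

theorem loc_const (c : Cl (Fin b) 4) (d : D) : loc c (fun _ => d) = .inl d := by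
  have h : ∃ x, (fun _ : Fin 8 => d) = fun _ => x := ⟨d, rfl⟩
  unfold loc
  rw [dif_pos h]
  have : h.choose = d := (congrFun h.choose_spec 0).symm
  rw [this]

theorem loc_cpt (c : Cl (Fin b) 4) (j : Fin 4) (d d' : D) :
    loc c (cpt (vb c) j d d') = vx (c j).1 d d' := by
  by_cases hd : d = d'
  · subst hd
    have e1 : cpt (vb c) j d d = fun _ => d := by
      funext s
      simp [cpt]
    rw [e1, loc_const]
    unfold vx
    rw [if_pos rfl]
  · have h1 : ¬ ∃ x, cpt (vb c) j d d' = fun _ => x := by
      rintro ⟨x, hx⟩
      obtain ⟨h2, h3⟩ := cpt_const _ _ _ _ _ hx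
      exact hd (h2.trans h3.symm)
    have h2 : ∃ q : Fin 4 × D × D, cpt (vb c) j d d' = cpt (vb c) q.1 q.2.1 q.2.2 :=
      ⟨(j, d, d'), rfl⟩
    unfold loc vx
    rw [dif_neg h1, dif_pos h2, if_neg hd]
    obtain ⟨h3, h4, h5⟩ := cpt_inj _ _ _ _ _ _ _ hd h2.choose_spec
    rw [← h3, ← h4, ← h5]

section inst

variable {ι : Type} {ar : ι → ℕ} (rel : ∀ i, Set (Fin (ar i) → D)) {N : ℕ}

/-- the constraints that say that the table of `c` is a polymorphism -/
def gad (e : Wd D k b → Fin N) (m : Fin k) (c : Cl (Fin b) 4) : Set (Con ar (Fin N)) :=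
  {C | ∃ (i : ι) (t : Fin 8 → Fin (ar i) → D), (∀ s, t s ∈ rel i) ∧
    C = ⟨i, fun j => e (m, loc c fun s => t s j)⟩}

/-- the instance of a formula -/
def inst (e : Wd D k b → Fin N) (F : BF k b 4) : Set (Con ar (Fin N)) :=
  {C | ∃ m, ∃ c ∈ F m, C ∈ gad rel e m c}

variable {rel}

theorem odd_of_sat {K : Type} (a0 a1 : K → D) (dec : (D → D) → (K → D) → Bool)
    (hd : ∀ f : (Fin 8 → D) → D, Pol rel f → ∃ i : Fin 8, ∀ cl : Fin 8 → Bool,
      dec (fun d => f fun _ => d) (fun x => f fun s => if cl s = true then a1 x else a0 x) = cl i)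
    (e : Wd D k b → Fin N) (F : BF k b 4)
    (h : Sat rel (inst rel e F)) (m : Fin k) : ∃ z : Fin b → Bool, ∀ c ∈ F m, OddSat z c := by
  obtain ⟨x, hx⟩ := h
  refine ⟨fun v => dec (fun d => x (e (m, .inl d))) fun y => x (e (m, vx v (a0 y) (a1 y))),
    fun c hc => ?_⟩
  rw [oddSat_iff4]
  have hf : Pol rel (fun p : Fin 8 → D => x (e (m, loc c p))) := by
    intro i t ht
    exact hx ⟨i, fun j => e (m, loc c fun s => t s j)⟩ ⟨m, c, hc, i, t, ht, rfl⟩
  obtain ⟨i, hi⟩ := hd _ hf
  have key : ∀ j : Fin 4, dec (fun d => x (e (m, .inl d)))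
      (fun y => x (e (m, vx (c j).1 (a0 y) (a1 y)))) = col (vb c) j i := by
    intro j
    rw [← hi (col (vb c) j)]
    have e1 : (fun d => x (e (m, loc c fun _ : Fin 8 => d))) = fun d => x (e (m, .inl d)) := by
      funext d
      rw [loc_const]
    have e2 : (fun y => x (e (m, loc c fun s => if col (vb c) j s = true then a1 y else a0 y))) =
        fun y => x (e (m, vx (c j).1 (a0 y) (a1 y))) := by
      funext y
      have := loc_cpt c j (a0 y) (a1 y)
      unfold cpt at this
      rw [this]
    rw [e1, e2]
  rw [key 0, key 1, key 2, key 3]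
  simp only [col, colv]
  generalize en8 i = v
  generalize vb c = β
  revert v β
  decide

theorem sat_of_odd [Nonempty D] (e : Wd D k b → Fin N) (he : Function.Injective e) (F : BF k b 4)
    (z : Fin k → Fin b → Bool) (hz : ∀ m, ∀ c ∈ F m, OddSat (z m) c) :
    Sat rel (inst rel e F) := by
  have hs : ∀ (m : Fin k) (c : Cl (Fin b) 4), ∃ s : Fin 8, OddSat (z m) c →
      ∀ j, col (vb c) j s = z m (c j).1 := by
    intro m c
    by_cases h : OddSat (z m) c
    · obtain ⟨s, hs⟩ := col_row (vb c) (fun j => z m (c j).1) ((oddSat_iff4 _ _).1 h)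
      exact ⟨s, fun _ => hs⟩
    · exact ⟨0, fun h' => absurd h' h⟩
  choose s hs using hs
  let val : Wd D k b → D := fun w => match w with
    | (_, .inl d) => d
    | (m, .inr (.inl (v, d, d'))) => if z m v = true then d' else d
    | (m, .inr (.inr (c, p))) => p (s m c)
  refine ⟨Function.extend e val fun _ => Classical.arbitrary D, ?_⟩
  rintro C ⟨m, c, hc, i, t, ht, rfl⟩
  have key : ∀ p : Fin 8 → D, val (m, loc c p) = p (s m c) := by
    intro p
    by_cases h1 : ∃ d, p = fun _ => d
    · obtain ⟨d, rfl⟩ := h1
      rw [loc_const]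
    · by_cases h2 : ∃ q : Fin 4 × D × D, p = cpt (vb c) q.1 q.2.1 q.2.2
      · unfold loc
        rw [dif_neg h1, dif_pos h2]
        have h3 := h2.choose_spec
        have h4 := hs m c (hz m c hc) h2.choose.1
        show (if z m (c h2.choose.1).1 = true then h2.choose.2.2 else h2.choose.2.1) = p (s m c)
        have h5 := congrFun h3 (s m c)
        rw [h5, cpt_apply, h4]
      · unfold loc
        rw [dif_neg h1, dif_neg h2]
  have e1 : (fun j => Function.extend e val (fun _ => Classical.arbitrary D)
      (e (m, loc c fun s => t s j))) = t (s m c) := by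
    funext j
    rw [he.extend_apply, key]
  show (fun j => Function.extend e val (fun _ => Classical.arbitrary D)
      (e (m, loc c fun s => t s j))) ∈ rel i
  rw [e1]
  exact ht _

theorem inst_inputs (e : Wd D k b → Fin N) (f : Set (Con ar (Fin N)) → ℝ)
    (hf : f ∈ conInputs ar (Fin N)) : (fun F => f (inst rel e F)) ∈ orInputs k b 4 := by
  rcases hf with ⟨C, rfl⟩ | ⟨a, rfl⟩
  · refine Or.inl ⟨univ.filter fun p : Fin k × Cl (Fin b) 4 => C ∈ gad rel e p.1 p.2, ?_⟩
    funext F
    have h1 : C ∈ inst rel e F ↔ ∃ p ∈ univ.filter (fun p : Fin k × Cl (Fin b) 4 =>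
        C ∈ gad rel e p.1 p.2), p.2 ∈ F p.1 := by
      constructor
      · rintro ⟨m, c, hc, h⟩
        exact ⟨(m, c), mem_filter.2 ⟨mem_univ _, h⟩, hc⟩
      · rintro ⟨p, hp, hc⟩
        exact ⟨p.1, p.2, hc, (mem_filter.1 hp).2⟩
    rw [← ind_congr h1]
    unfold ind
    by_cases h2 : C ∈ inst rel e F
    · exact (if_pos h2).trans (if_pos h2).symm
    · exact (if_neg h2).trans (if_neg h2).symm
  · exact Or.inr ⟨a, rfl⟩

end inst

end H630CD
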