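import Pool.Agent.H630SD.Gad
import Pool.Agent.H630GI.Enc

/-! The lower bound in general: every decision problem to which the systems of parity equations of
blocks of variables reduce by ORs (helper630) -/

open scoped Classical
open Finset Filter

namespace H630CD

open H630VC H630XR H630GI H630SD

variable {k b : ℕ}

/-- the family `f r`, `r ∈ R`, decides `U` with advantage `ξ` -/
def Decides {X R : Type} [Fintype R] (U : X → Prop) (ξ : ℝ) (f : R → X → ℝ) : Prop :=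
  ∀ x : X, (¬ U x → (1 / 2 + ξ) * Fintype.card R ≤ (univ.filter fun r => f r x < 1).card) ∧
    (U x → (1 / 2 + ξ) * Fintype.card R ≤ (univ.filter fun r => 1 ≤ f r x).card)

/-- `inst` is a reduction of parity systems in blocks -/
def Red {X : Type} (k b : ℕ) (I : Set (X → ℝ)) (U : X → Prop) (inst : BF k b 4 → X) : Prop :=
  (∀ f ∈ I, (fun F => f (inst F)) ∈ orInputs k b 4) ∧
  (∀ (F : BF k b 4) (m : Fin k), (¬ ∃ z : Fin b → Bool, ∀ c ∈ F m, OddSat z c) → U (inst F)) ∧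
  ∀ (F : BF k b 4) (z : Fin k → Fin b → Bool), (∀ m, ∀ c ∈ F m, OddSat (z m) c) → ¬ U (inst F)

/-- the walk on instances -/
theorem walk_gen {X : Type} {I : Set (X → ℝ)} {U : X → Prop} {inst : BF k b 4 → X}
    (hr : Red k b I U inst) (hb : 1 ≤ b) (κ S ξ P : ℝ) (m : ℕ)
    (hd : ∀ l : List (Finset (Cl (Fin b) 4) → ℝ), Prog (orCnf b 4) l →
      (l.length : ℝ) ≤ S → ∀ f ∈ l,
      avg (fun ω : Fin m → Cl (Fin b) 4 => ind (1 ≤ f (univ.image ω))) ≤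
        κ + avg fun z : Fin b → Bool => ind (1 ≤ f (oddFormula z)))
    {R : Type} [Fintype R] [Nonempty R]
    (f : R → X → ℝ) (l : R → List (X → ℝ))
    (q : R → List (List ((X → ℝ) × ℝ)))
    (hp : ∀ r, FProg I (l r) (q r)) (hf : ∀ r, f r ∈ l r)
    (hdec : Decides U ξ f) (hξ0 : 0 ≤ 1 / 2 + ξ)
    (hsize : ∀ r, (((l r).length + wires (q r) + 2 : ℕ) : ℝ) ≤ S)
    (hP : ∀ r, (combos (q r) : ℝ) ≤ P) :
    k * (2 * ξ) ≤ k * κ + P + k * (2 ^ b / 2 ^ m) := by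
  have hne : Nonempty (Fin m → Cl (Fin b) 4) := ⟨fun _ _ => (⟨0, hb⟩, true)⟩
  have hR : (0 : ℝ) < Fintype.card R := by exact_mod_cast Fintype.card_pos
  refine walk_rand κ S (2 ^ b / 2 ^ m) ξ P m
    (fun F => ¬ ∃ z : Fin b → Bool, ∀ c ∈ F, OddSat z c) hd
    (fun r F => f r (inst F)) (fun r => (l r).map fun f => fun F => f (inst F))
    (fun r => (q r).map fun w => w.map fun p => ((fun x => p.1 (inst x)), p.2))
    (fun r => FProg.comap inst hr.1 (hp r))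
    (fun r => List.mem_map.2 ⟨f r, hf r, rfl⟩) ?_ ?_ ?_ hξ0 (by positivity)
    (avg_sat (by norm_num) hb m) ?_ ?_
  · intro r
    rw [List.length_map, wires_map]
    exact hsize r
  · intro r
    rw [combos_map]
    exact hP r
  · have h1 := (hdec (inst fun _ => ∅)).1 (hr.2.2 _ (fun _ _ => false)
      (fun m c hc => absurd hc (Finset.notMem_empty c)))
    have h2 : (((univ.filter fun r => f r (inst fun _ => ∅) < 1).card : ℕ) : ℝ) ≤
        Fintype.card R := by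
      have := card_le_univ (univ.filter fun r => f r (inst fun _ => ∅) < 1)
      exact_mod_cast this
    have h3 : (1 / 2 + ξ) * Fintype.card R ≤ 1 * (Fintype.card R : ℝ) := by
      rw [one_mul]
      exact h1.trans h2
    exact le_of_mul_le_mul_right h3 hR
  · intro y i F hF
    refine (hdec _).2 (hr.2.1 _ i fun hs => hF ?_)
    have h2 : (upd y i F : BF k b 4) i = F := by simp [upd]
    rw [h2] at hs
    exact hs
  · intro y i
    refine (hdec _).1 (hr.2.2 _ y fun j c hc => ?_)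
    unfold ctx at hc
    by_cases hj : j.1 < i.1 + 1
    · rw [if_pos hj] at hc
      exact (mem_filter.1 hc).2
    · rw [if_neg hj] at hc
      exact absurd hc (Finset.notMem_empty c)

/-- the choice of the parameters -/
theorem choose_params (M : ℕ) (hM : 1 ≤ M) (a c ξ ε ν δ : ℝ) (N₁ : ℕ) (ha0 : 0 ≤ a) (hc0 : 0 < c) (hξ : 0 < ξ)
    (hε : 0 < ε) (hν : 0 < ν) (hν1 : ν ≤ 1) (hδ : δ < 1) (h1 : a < 1 - 4 * ε)
    (h2 : c < ε * ν) :
    ∃ N₀ : ℕ, ∀ N : ℕ, N₀ ≤ N → ∃ b k : ℕ, N₁ ≤ b ∧ 1 ≤ b ∧ 1 ≤ k ∧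
      k * (M * b ^ 4) ≤ N ∧
      ((2 * b : ℕ) : ℝ) ≤ (b : ℝ) ^ (((4 : ℕ) : ℝ) / 2 - δ) ∧
      ((2 : ℝ) ^ ((N : ℝ) ^ c) + 2) * (33 * b ^ 4) ≤ 2 ^ ((b : ℝ) ^ ν) ∧ (b : ℝ) ^ (-ν) ≤ ξ / 2 ∧
      (N : ℝ) ^ a ≤ ξ / 2 * k ∧ (2 : ℝ) ^ b / 2 ^ (2 * b) ≤ ξ / 2 := by
  -- eventually in `b`
  have t1 : ∀ᶠ b : ℕ in atTop, (2 : ℝ) ≤ (b : ℝ) ^ (1 - δ) :=
    ((tendsto_rpow_atTop (by linarith : 0 < 1 - δ)).comp
      tendsto_natCast_atTop_atTop).eventually_ge_atTop 2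
  have t2 : ∀ᶠ b : ℕ in atTop, (2 / ξ : ℝ) ≤ (b : ℝ) ^ ν :=
    ((tendsto_rpow_atTop hν).comp tendsto_natCast_atTop_atTop).eventually_ge_atTop _
  have t3 : ∀ᶠ b : ℕ in atTop, (2 / ξ : ℝ) ≤ (b : ℝ) :=
    tendsto_natCast_atTop_atTop.eventually_ge_atTop _
  have hM1 : (1 : ℝ) ≤ M := by exact_mod_cast hM
  have hM0 : (0 : ℝ) < M := by linarith
  obtain ⟨B, hB⟩ := eventually_atTop.1 ((t1.and t2).and (t3.and
    ((eventually_ge_atTop N₁).and (eventually_ge_atTop 1))))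
  -- eventually in `N`
  have s1 : ∀ᶠ N : ℕ in atTop, (2 * B + 4 : ℝ) ≤ (N : ℝ) ^ ε :=
    ((tendsto_rpow_atTop hε).comp tendsto_natCast_atTop_atTop).eventually_ge_atTop _
  have s2 : ∀ᶠ N : ℕ in atTop, (M * (2 + 2 / ξ) : ℝ) ≤ (N : ℝ) ^ (1 - 4 * ε - a) :=
    ((tendsto_rpow_atTop (by linarith : 0 < 1 - 4 * ε - a)).comp
      tendsto_natCast_atTop_atTop).eventually_ge_atTop _
  have s3 : ∀ᶠ N : ℕ in atTop, (8 : ℝ) ≤ (N : ℝ) ^ (ε * ν - c) :=
    ((tendsto_rpow_atTop (by linarith : 0 < ε * ν - c)).comp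
      tendsto_natCast_atTop_atTop).eventually_ge_atTop _
  have s4 : ∀ᶠ N : ℕ in atTop,
      ((N : ℝ) ^ c) ^ (4 * ε / c) * Real.exp (-Real.log 2 * (N : ℝ) ^ c) < 1 / 33 := by
    have h := tendsto_rpow_mul_exp_neg_mul_atTop_nhds_zero (4 * ε / c) (Real.log 2)
      (Real.log_pos (by norm_num))
    exact (h.comp ((tendsto_rpow_atTop hc0).comp tendsto_natCast_atTop_atTop)).eventually_lt_const
      (by norm_num)
  obtain ⟨N₀, hN₀⟩ := eventually_atTop.1 ((s1.and s2).and ((s3.and s4).and (eventually_ge_atTop 1)))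
  refine ⟨N₀, fun N hN => ?_⟩
  obtain ⟨⟨u1, u2⟩, ⟨u3, u5⟩, u4⟩ := hN₀ N hN
  have hN1 : (1 : ℝ) ≤ N := by exact_mod_cast u4
  have hN0 : (0 : ℝ) < N := by linarith
  set x : ℝ := (N : ℝ) with hx
  set b : ℕ := ⌊x ^ ε⌋₊ with hb
  have b1 : (b : ℝ) ≤ x ^ ε := Nat.floor_le (by positivity)
  have b2 : x ^ ε < b + 1 := Nat.lt_floor_add_one _
  have b3 : x ^ ε / 2 ≤ b := by
    have : (0 : ℝ) ≤ B := Nat.cast_nonneg _
    linarith
  have b4 : B ≤ b := by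
    have : (B : ℝ) ≤ b := by
      have : (0 : ℝ) ≤ B := Nat.cast_nonneg _
      linarith
    exact_mod_cast this
  obtain ⟨⟨v1, v2⟩, v3, v4, v5⟩ := hB b b4
  have hb1 : (1 : ℝ) ≤ b := by exact_mod_cast v5
  have hb0 : (0 : ℝ) < b := by linarith
  have b5 : (b : ℝ) ^ 4 ≤ x ^ (4 * ε) := by
    calc (b : ℝ) ^ 4 ≤ (x ^ ε) ^ 4 := pow_le_pow_left₀ hb0.le b1 4
      _ = x ^ (4 * ε) := by
          rw [← Real.rpow_natCast, ← Real.rpow_mul hN0.le]
          congr 1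
          push_cast
          ring
  set k : ℕ := ⌊x / (M * b ^ 4)⌋₊ with hk
  have k1 : (k : ℝ) ≤ x / (M * b ^ 4) := Nat.floor_le (by positivity)
  have k2 : x / (M * b ^ 4) < k + 1 := Nat.lt_floor_add_one _
  have k3 : x ^ (1 - 4 * ε) / M ≤ x / (M * b ^ 4) := by
    have e1 : x ^ (1 - 4 * ε) = x / x ^ (4 * ε) := by
      rw [Real.rpow_sub hN0, Real.rpow_one]
    rw [e1, div_div, mul_comm _ (M : ℝ)]
    apply div_le_div_of_nonneg_left hN0.le (by positivity)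
    exact mul_le_mul_of_nonneg_left b5 hM0.le
  have a1 : (1 : ℝ) ≤ x ^ a := Real.one_le_rpow hN1 ha0
  have e3 : x ^ (1 - 4 * ε) = x ^ a * x ^ (1 - 4 * ε - a) := by
    rw [← Real.rpow_add hN0]
    congr 1
    ring
  have hxi : 0 < 2 / ξ := by positivity
  have k4 : x ^ a * (1 + 2 / ξ) ≤ k := by
    have e4 : x ^ a * (2 + 2 / ξ) ≤ x ^ (1 - 4 * ε) / M := by
      rw [le_div_iff₀ hM0, e3, mul_assoc]
      apply mul_le_mul_of_nonneg_left _ (by positivity)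
      rw [mul_comm]
      exact u2
    have e5 : x ^ a * (2 + 2 / ξ) < k + 1 := (e4.trans k3).trans_lt k2
    nlinarith
  refine ⟨b, k, v4, v5, ?_, ?_, ?_, ?_, ?_, ?_, ?_⟩
  · have : (1 : ℝ) ≤ k := by nlinarith
    exact_mod_cast this
  · have : ((k * (M * b ^ 4) : ℕ) : ℝ) ≤ ((N : ℕ) : ℝ) := by
      push_cast
      rw [le_div_iff₀ (by positivity)] at k1
      linarith
    exact Nat.cast_le.1 this
  · have e5 : (b : ℝ) ^ (((4 : ℕ) : ℝ) / 2 - δ) = b * (b : ℝ) ^ (1 - δ) := by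
      have : ((4 : ℕ) : ℝ) / 2 - δ = 1 + (1 - δ) := by push_cast; ring
      rw [this, Real.rpow_add hb0, Real.rpow_one]
    rw [e5]
    push_cast
    nlinarith
  · have f5 : (1 : ℝ) ≤ x ^ c := Real.one_le_rpow hN1 hc0.le
    have e6 : 2 * x ^ c + 2 ≤ (b : ℝ) ^ ν := by
      have f1 : (x ^ ε / 2) ^ ν ≤ (b : ℝ) ^ ν := Real.rpow_le_rpow (by positivity) b3 hν.le
      have f2 : (x ^ ε / 2) ^ ν = x ^ (ε * ν) / 2 ^ ν := by
        rw [Real.div_rpow (by positivity) (by norm_num), ← Real.rpow_mul hN0.le]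
      have f3 : (2 : ℝ) ^ ν ≤ 2 := by
        calc (2 : ℝ) ^ ν ≤ 2 ^ (1 : ℝ) := Real.rpow_le_rpow_of_exponent_le (by norm_num) hν1
          _ = 2 := Real.rpow_one _
      have f4 : x ^ (ε * ν) = x ^ c * x ^ (ε * ν - c) := by
        rw [← Real.rpow_add hN0]
        congr 1
        ring
      have f6 : x ^ (ε * ν) / 2 ≤ x ^ (ε * ν) / 2 ^ ν :=
        div_le_div_of_nonneg_left (by positivity) (by positivity) f3
      have f7 : x ^ c * 8 ≤ x ^ (ε * ν) := by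
        rw [f4]
        exact mul_le_mul_of_nonneg_left u3 (by positivity)
      linarith
    have g1 : (1 : ℝ) ≤ 2 ^ (x ^ c) := Real.one_le_rpow (by norm_num) (by positivity)
    have g2 : 33 * (b : ℝ) ^ 4 ≤ 2 ^ (x ^ c) := by
      have e7 : (x ^ c) ^ (4 * ε / c) = x ^ (4 * ε) := by
        rw [← Real.rpow_mul hN0.le]
        congr 1
        field_simp
      rw [e7] at u5
      have e8 : Real.exp (-Real.log 2 * x ^ c) = (2 ^ (x ^ c))⁻¹ := by
        rw [neg_mul, Real.exp_neg, ← Real.rpow_def_of_pos (by norm_num : (0 : ℝ) < 2)]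
      rw [e8, ← div_eq_mul_inv, div_lt_iff₀ (by positivity)] at u5
      linarith
    calc ((2 : ℝ) ^ (x ^ c) + 2) * (33 * b ^ 4) ≤ (2 ^ (x ^ c) * 4) * 2 ^ (x ^ c) := by
          apply mul_le_mul (by linarith) g2 (by positivity) (by positivity)
      _ = 2 ^ (2 * x ^ c + 2) := by
          rw [Real.rpow_add (by norm_num), two_mul, Real.rpow_add (by norm_num)]
          norm_num
          ring
      _ ≤ 2 ^ ((b : ℝ) ^ ν) := Real.rpow_le_rpow_of_exponent_le (by norm_num) e6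
  · rw [Real.rpow_neg hb0.le]
    have g2 : ((b : ℝ) ^ ν)⁻¹ ≤ (2 / ξ)⁻¹ := inv_anti₀ hxi v2
    rw [inv_div] at g2
    exact g2
  · have g3 : x ^ a * (2 / ξ) ≤ k := by nlinarith
    calc x ^ a = ξ / 2 * (x ^ a * (2 / ξ)) := by field_simp
      _ ≤ ξ / 2 * k := mul_le_mul_of_nonneg_left g3 (by positivity)
  · have g4 : (2 : ℝ) ^ b / 2 ^ (2 * b) = (2 ^ b)⁻¹ := by
      rw [two_mul, pow_add]
      field_simp
    rw [g4]
    have g5 : (b : ℝ) < 2 ^ b := by exact_mod_cast Nat.lt_two_pow_self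
    have g6 : ((2 : ℝ) ^ b)⁻¹ ≤ (2 / ξ)⁻¹ := inv_anti₀ hxi (by linarith)
    rw [inv_div] at g6
    exact g6

/-- the lower bound -/
theorem lower_gen (M : ℕ) (hM : 1 ≤ M) (a c ξ : ℝ) (ha0 : 0 ≤ a) (ha : a < 1) (hc0 : 0 < c)
    (hc : c < (1 - a) / 52) (hξ : 0 < ξ) :
    ∃ N₀ : ℕ, ∀ N : ℕ, N₀ ≤ N → ∀ (X : Type) (I : Set (X → ℝ)) (U : X → Prop),
      (∀ k b : ℕ, 1 ≤ b → k * (M * b ^ 4) ≤ N → ∃ inst : BF k b 4 → X, Red k b I U inst) →
      ∀ (R : Type) [Fintype R] [Nonempty R] (f : R → X → ℝ) (l : R → List (X → ℝ))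
      (q : R → List (List ((X → ℝ) × ℝ))),
      (∀ r, FProg I (l r) (q r)) → (∀ r, f r ∈ l r) → Decides U ξ f →
      (∀ r, (combos (q r) : ℝ) ≤ (N : ℝ) ^ a) →
      ∃ r, (2 : ℝ) ^ ((N : ℝ) ^ c) < (l r).length + wires (q r) := by
  set ρ : ℝ := 52 * c / (1 - a) with hρ
  have h1a : 0 < 1 - a := by linarith
  have hρ0 : 0 < ρ := by positivity
  have hρ1 : ρ < 1 := by
    rw [hρ, div_lt_one h1a]
    linarith
  set θ : ℝ := (1 + ρ) / 2 with hθ
  have hθ1 : θ < 1 := by rw [hθ]; linarith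
  have hθ0 : 0 < θ := by rw [hθ]; linarith
  have hθρ : ρ < θ * θ := by
    have : θ * θ - ρ = ((1 - ρ) / 2) * ((1 - ρ) / 2) := by rw [hθ]; ring
    have h2 : 0 < ((1 - ρ) / 2) * ((1 - ρ) / 2) := by
      have : 0 < (1 - ρ) / 2 := by linarith
      positivity
    linarith
  set ε : ℝ := (1 - a) / 4 * θ with hε
  set ν : ℝ := θ / 13 with hν
  set δ : ℝ := (13 * ν + 1) / 2 with hδ
  have hε0 : 0 < ε := by positivity
  have hν0 : 0 < ν := by positivity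
  have hν13 : ν < 1 / 13 := by rw [hν]; linarith
  have hδ1 : δ < 1 := by rw [hδ]; linarith
  have hδ2 : (3 * ((4 : ℕ) : ℝ) + 1) * ν < δ := by rw [hδ]; push_cast; linarith
  have h4 : a < 1 - 4 * ε := by
    have : 4 * ε = (1 - a) * θ := by rw [hε]; ring
    rw [this]
    nlinarith
  have hcε : c < ε * ν := by
    have e1 : ε * ν = (1 - a) / 52 * (θ * θ) := by rw [hε, hν]; ring
    have e2 : c = (1 - a) / 52 * ρ := by rw [hρ]; field_simp
    rw [e1, e2]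
    exact mul_lt_mul_of_pos_left hθρ (by positivity)
  obtain ⟨N₁, hN₁⟩ := dich_ind 4 (by norm_num) δ ν hν0 hδ2
  obtain ⟨N₀, hN₀⟩ := choose_params M hM a c ξ ε ν δ N₁ ha0 hc0 hξ hε0 hν0 (by linarith) hδ1 h4 hcε
  refine ⟨N₀, fun N hN X I U hred R _ _ f l q hp hf hdec hcomb => ?_⟩
  obtain ⟨b, k, g1, g2, g3, g4, g5, g6, g7, g8, g9⟩ := hN₀ N hN
  by_contra hcon
  push Not at hcon
  have hsize : ∀ r, (((l r).length + wires (q r) + 2 : ℕ) : ℝ) ≤ 2 ^ ((N : ℝ) ^ c) + 2 := by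
    intro r
    have := hcon r
    push_cast
    linarith
  have hd : ∀ l : List (Finset (Cl (Fin b) 4) → ℝ), Prog (orCnf b 4) l →
      (l.length : ℝ) ≤ 2 ^ ((N : ℝ) ^ c) + 2 → ∀ f ∈ l,
      avg (fun ω : Fin (2 * b) → Cl (Fin b) 4 => ind (1 ≤ f (univ.image ω))) ≤
        (b : ℝ) ^ (-ν) + avg fun z : Fin b → Bool => ind (1 ≤ f (oddFormula z)) := by
    intro l hl hlen f hf
    obtain ⟨l', h1, h2, h3⟩ := expand hl
    refine hN₁ b g1 (2 * b) g5 l' h1 ?_ f (h2 hf)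
    have e1 : Fintype.card (Cl (Fin b) 4) = 16 * b ^ 4 := by rw [card_cl]; ring
    rw [e1] at h3
    have h4 : (l'.length : ℝ) ≤ l.length * (2 * (16 * b ^ 4) + 1) := by exact_mod_cast h3
    have hb1 : (1 : ℝ) ≤ (b : ℝ) ^ 4 := one_le_pow₀ (by exact_mod_cast g2)
    refine h4.trans (le_trans ?_ g6)
    apply mul_le_mul hlen (by linarith) (by positivity) (by positivity)
  obtain ⟨inst, hr⟩ := hred k b g2 g4
  have hw := walk_gen hr g2 ((b : ℝ) ^ (-ν)) (2 ^ ((N : ℝ) ^ c) + 2) ξ ((N : ℝ) ^ a)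
    (2 * b) hd f l q hp hf hdec (by linarith) hsize hcomb
  have hk0 : (0 : ℝ) < k := by exact_mod_cast g3
  nlinarith

end H630CD
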