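import Pool.Agent.H630CD.Gad
import Pool.Agent.H630CD.Gen
import Pool.Agent.H630CD.GModel

/-! The lower bounds for constraint satisfaction problems and for graph colouring (helper630) -/

open scoped Classical
open Finset

namespace H630CD

open H630VC H630XR H630GI H630SD

variable {D ι : Type} {ar : ι → ℕ} {rel : ∀ i, Set (Fin (ar i) → D)} {k b : ℕ}

theorem card_wd [Fintype D] (k b : ℕ) (hb : 1 ≤ b) :
    Fintype.card (Wd D k b) ≤ k * (18 * (Fintype.card D + 1) ^ 8 * b ^ 4) := by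
  have h1 : Fintype.card (Cl (Fin b) 4) = 16 * b ^ 4 := by rw [card_cl]; ring
  have h2 : Fintype.card (Fin 8 → D) = Fintype.card D ^ 8 := by
    rw [Fintype.card_fun, Fintype.card_fin]
  rw [Fintype.card_prod, Fintype.card_sum, Fintype.card_sum, Fintype.card_prod,
    Fintype.card_prod, Fintype.card_prod, h1, h2, Fintype.card_fin, Fintype.card_fin]
  apply Nat.mul_le_mul_left
  set d := Fintype.card D with hd
  have p1 : d ≤ (d + 1) ^ 8 := by
    calc d ≤ d + 1 := Nat.le_succ d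
      _ = (d + 1) ^ 1 := (pow_one _).symm
      _ ≤ (d + 1) ^ 8 := Nat.pow_le_pow_right (Nat.succ_pos d) (by norm_num)
  have p2 : d * d ≤ (d + 1) ^ 8 := by
    calc d * d ≤ (d + 1) * (d + 1) := Nat.mul_le_mul (Nat.le_succ d) (Nat.le_succ d)
      _ = (d + 1) ^ 2 := (sq _).symm
      _ ≤ (d + 1) ^ 8 := Nat.pow_le_pow_right (Nat.succ_pos d) (by norm_num)
  have p3 : d ^ 8 ≤ (d + 1) ^ 8 := Nat.pow_le_pow_left (Nat.le_succ d) 8
  have q1 : 1 ≤ b ^ 4 := Nat.one_le_pow _ _ hb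
  have q2 : b ≤ b ^ 4 := by
    calc b = b ^ 1 := (pow_one _).symm
      _ ≤ b ^ 4 := Nat.pow_le_pow_right hb (by norm_num)
  have r1 : d ≤ (d + 1) ^ 8 * b ^ 4 := by
    calc d = d * 1 := (mul_one _).symm
      _ ≤ (d + 1) ^ 8 * b ^ 4 := Nat.mul_le_mul p1 q1
  have r2 : b * (d * d) ≤ (d + 1) ^ 8 * b ^ 4 := by
    calc b * (d * d) = (d * d) * b := by ring
      _ ≤ (d + 1) ^ 8 * b ^ 4 := Nat.mul_le_mul p2 q2
  have r3 : 16 * b ^ 4 * d ^ 8 ≤ 16 * ((d + 1) ^ 8 * b ^ 4) := by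
    calc 16 * b ^ 4 * d ^ 8 = 16 * (d ^ 8 * b ^ 4) := by ring
      _ ≤ 16 * ((d + 1) ^ 8 * b ^ 4) :=
        Nat.mul_le_mul_left _ (Nat.mul_le_mul_right _ p3)
  calc d + (b * (d * d) + 16 * b ^ 4 * d ^ 8)
      ≤ (d + 1) ^ 8 * b ^ 4 + ((d + 1) ^ 8 * b ^ 4 + 16 * ((d + 1) ^ 8 * b ^ 4)) :=
        Nat.add_le_add r1 (Nat.add_le_add r2 r3)
    _ = 18 * (d + 1) ^ 8 * b ^ 4 := by ring

/-- what the gadget needs -/
def Dec (rel : ∀ i, Set (Fin (ar i) → D)) : Prop :=
  ∃ (K : Type) (a0 a1 : K → D) (dec : (D → D) → (K → D) → Bool),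
    ∀ f : (Fin 8 → D) → D, Pol rel f → ∃ i : Fin 8, ∀ cl : Fin 8 → Bool,
      dec (fun d => f fun _ => d) (fun x => f fun s => if cl s = true then a1 x else a0 x) = cl i

theorem red_csp [Fintype D] [Nonempty D] (hD : Dec rel) (N : ℕ) (hb : 1 ≤ b)
    (hN : k * (18 * (Fintype.card D + 1) ^ 8 * b ^ 4) ≤ N) :
    ∃ e : Wd D k b → Fin N, Function.Injective e ∧
      Red k b (conInputs ar (Fin N)) (fun F => ¬ Sat rel F) (inst rel e) := by
  have hcard : Fintype.card (Wd D k b) ≤ Fintype.card (Fin N) := by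
    rw [Fintype.card_fin]
    exact (card_wd k b hb).trans hN
  obtain ⟨e⟩ := Function.Embedding.nonempty_of_card_le hcard
  obtain ⟨K, a0, a1, dec, hdc⟩ := hD
  refine ⟨e, e.injective, inst_inputs e, fun F m h hs => h (odd_of_sat a0 a1 dec hdc e F hs m),
    fun F z hz h => h (sat_of_odd e e.injective F z hz)⟩

theorem nonempty_of_not_siggers (hE : ¬ Siggers rel) : Nonempty D := by
  by_contra hDe
  rw [not_nonempty_iff] at hDe
  apply hE
  refine ⟨fun x => hDe.elim (x 0), fun i t ht => ?_, fun x => hDe.elim x⟩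
  have e1 : (fun j => (fun x : Fin 6 → D => (hDe.elim (x 0) : D)) fun s => t s j) = t 0 := by
    funext j
    exact hDe.elim (t 0 j)
  rw [e1]
  exact ht 0

theorem one_le_M (n : ℕ) : 1 ≤ 18 * (n + 1) ^ 8 := Nat.succ_le_of_lt (by positivity)

/-- the lower bound for constraint satisfaction problems -/
theorem lower (D : Type) [Fintype D] (a c ξ : ℝ) (ha0 : 0 ≤ a) (ha : a < 1) (hc0 : 0 < c)
    (hc : c < (1 - a) / 52) (hξ : 0 < ξ) :
    ∃ N₀ : ℕ, ∀ N : ℕ, N₀ ≤ N → ∀ (ι : Type) (ar : ι → ℕ) (rel : ∀ i, Set (Fin (ar i) → D)),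
      Dec rel → Nonempty D → ∀ (R : Type) [Fintype R] [Nonempty R]
      (f : R → Set (Con ar (Fin N)) → ℝ) (l : R → List (Set (Con ar (Fin N)) → ℝ))
      (q : R → List (List ((Set (Con ar (Fin N)) → ℝ) × ℝ))),
      (∀ r, FProg (conInputs ar (Fin N)) (l r) (q r)) → (∀ r, f r ∈ l r) → DecidesSat rel ξ f →
      (∀ r, (combos (q r) : ℝ) ≤ (N : ℝ) ^ a) →
      ∃ r, (2 : ℝ) ^ ((N : ℝ) ^ c) < (l r).length + wires (q r) := by
  obtain ⟨N₀, hN₀⟩ := lower_gen _ (one_le_M (Fintype.card D)) a c ξ ha0 ha hc0 hc hξ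
  refine ⟨N₀, fun N hN ι ar rel hD hne R _ _ f l q hp hf hdec hcomb => ?_⟩
  refine hN₀ N hN _ (conInputs ar (Fin N)) (fun F => ¬ Sat rel F) (fun k b hb hkb => ?_) R f l q
    hp hf (fun F => ⟨fun h => (hdec F).1 (not_not.1 h), (hdec F).2⟩) hcomb
  obtain ⟨e, -, he⟩ := red_csp hD N hb hkb
  exact ⟨_, he⟩

/-! ### Graphs -/

/-- the simple graph of an instance -/
def gr {N : ℕ} (F : Set (Con (fun _ : Unit => 2) (Fin N))) : SimpleGraph (Fin N) where
  Adj x y := x ≠ y ∧ ((∃ C ∈ F, C.2 0 = x ∧ C.2 1 = y) ∨ ∃ C ∈ F, C.2 0 = y ∧ C.2 1 = x)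
  symm := ⟨fun _ _ h => ⟨h.1.symm, h.2.symm⟩⟩
  loopless := ⟨fun _ h => h.1 rfl⟩

theorem gr_sat {V : Type} (G : SimpleGraph V) {N : ℕ}
    (F : Set (Con (fun _ : Unit => 2) (Fin N))) (hF : ∀ C ∈ F, C.2 0 ≠ C.2 1) :
    Nonempty (gr F →g G) ↔ Sat (grel G) F := by
  constructor
  · rintro ⟨φ⟩
    refine ⟨φ, fun C hC => ?_⟩
    have h1 : (gr F).Adj (C.2 0) (C.2 1) := ⟨hF C hC, Or.inl ⟨C, hC, rfl, rfl⟩⟩
    exact φ.map_adj h1
  · rintro ⟨x, hx⟩
    refine ⟨⟨x, fun {u v} h => ?_⟩⟩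
    rcases h.2 with ⟨C, hC, h1, h2⟩ | ⟨C, hC, h1, h2⟩
    · have := hx C hC
      rw [← h1, ← h2]
      exact this
    · have : G.Adj (x (C.2 0)) (x (C.2 1)) := hx C hC
      rw [h1, h2] at this
      exact this.symm

theorem loc_ne {V : Type} (G : SimpleGraph V) (c : Cl (Fin b) 4) (p q : Fin 8 → V)
    (h : ∀ s, G.Adj (p s) (q s)) : loc c p ≠ loc c q := by
  intro he
  suffices hs : ∃ s, p s = q s by
    obtain ⟨s, hs⟩ := hs
    exact G.ne_of_adj (h s) hs
  by_cases p1 : ∃ d, p = fun _ => d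
  · obtain ⟨d, rfl⟩ := p1
    rw [loc_const] at he
    by_cases q1 : ∃ d, q = fun _ => d
    · obtain ⟨d', rfl⟩ := q1
      rw [loc_const] at he
      exact ⟨0, Sum.inl_injective he⟩
    · exfalso
      unfold loc at he
      rw [dif_neg q1] at he
      split_ifs at he
  · by_cases q1 : ∃ d, q = fun _ => d
    · exfalso
      obtain ⟨d', rfl⟩ := q1
      rw [loc_const] at he
      unfold loc at he
      rw [dif_neg p1] at he
      split_ifs at he
    · by_cases p2 : ∃ w : Fin 4 × V × V, p = cpt (vb c) w.1 w.2.1 w.2.2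
      · by_cases q2 : ∃ w : Fin 4 × V × V, q = cpt (vb c) w.1 w.2.1 w.2.2
        · obtain ⟨⟨j, d, d'⟩, hp⟩ := p2
          obtain ⟨⟨j', x, x'⟩, hq⟩ := q2
          have hp' : p = cpt (vb c) j d d' := hp
          have hq' : q = cpt (vb c) j' x x' := hq
          have hd : d ≠ d' := by
            rintro rfl
            exact p1 ⟨d, by rw [hp']; funext s; simp [cpt]⟩
          have hx : x ≠ x' := by
            rintro rfl
            exact q1 ⟨x, by rw [hq']; funext s; simp [cpt]⟩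
          rw [hp', hq', loc_cpt, loc_cpt] at he
          unfold vx at he
          rw [if_neg hd, if_neg hx] at he
          have e1 := Sum.inl_injective (Sum.inr_injective he)
          have e2 : d = x ∧ d' = x' := by
            simp only [Prod.mk.injEq] at e1
            exact e1.2
          obtain ⟨s, hs⟩ := col_not_compl (vb c) j j'
          refine ⟨s, ?_⟩
          rw [hp', hq', cpt_apply, cpt_apply, hs, e2.1, e2.2]
        · exfalso
          unfold loc at he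
          rw [dif_neg p1, dif_neg q1, dif_pos p2, dif_neg q2] at he
          exact Sum.inl_ne_inr (Sum.inr_injective he)
      · by_cases q2 : ∃ w : Fin 4 × V × V, q = cpt (vb c) w.1 w.2.1 w.2.2
        · exfalso
          unfold loc at he
          rw [dif_neg p1, dif_neg q1, dif_neg p2, dif_pos q2] at he
          exact Sum.inr_ne_inl (Sum.inr_injective he)
        · unfold loc at he
          rw [dif_neg p1, dif_neg q1, dif_neg p2, dif_neg q2] at he
          have e1 := Sum.inr_injective (Sum.inr_injective he)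
          have e2 : p = q := by
            simp only [Prod.mk.injEq, true_and] at e1
            exact e1
          exact ⟨0, by rw [e2]⟩

theorem inst_loopless {V : Type} (G : SimpleGraph V) {N : ℕ} (e : Wd V k b → Fin N)
    (he : Function.Injective e) (F : BF k b 4) :
    ∀ C ∈ inst (grel G) e F, C.2 0 ≠ C.2 1 := by
  rintro C ⟨m, c, hc, i, t, ht, rfl⟩
  intro h
  have h1 : e (m, loc c fun s => t s 0) = e (m, loc c fun s => t s 1) := h
  have h2 := he h1
  have h3 : loc c (fun s => t s 0) = loc c (fun s => t s 1) := by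
    simp only [Prod.mk.injEq, true_and] at h2
    exact h2
  exact loc_ne G c _ _ (fun s => ht s) h3

theorem red_graph {V : Type} [Fintype V] [Nonempty V] (G : SimpleGraph V) (hD : Dec (grel G))
    (N : ℕ) (hb : 1 ≤ b) (hN : k * (18 * (Fintype.card V + 1) ^ 8 * b ^ 4) ≤ N) :
    ∃ inst : BF k b 4 → SimpleGraph (Fin N),
      Red k b (adjInputs N) (fun H => ¬ Nonempty (H →g G)) inst := by
  obtain ⟨e, he, hr⟩ := red_csp hD N hb hN
  refine ⟨fun F => gr (inst (grel G) e F), ?_, fun F m h => ?_, fun F z hz => ?_⟩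
  · rintro f (⟨x, y, rfl⟩ | ⟨r, rfl⟩)
    · by_cases hxy : x = y
      · refine Or.inr ⟨0, ?_⟩
        funext F
        exact if_neg fun h => h.1 hxy
      · refine Or.inl ⟨univ.filter fun p : Fin k × Cl (Fin b) 4 =>
          (∃ C ∈ gad (grel G) e p.1 p.2, C.2 0 = x ∧ C.2 1 = y) ∨
            ∃ C ∈ gad (grel G) e p.1 p.2, C.2 0 = y ∧ C.2 1 = x, ?_⟩
        funext F
        have h1 : (gr (inst (grel G) e F)).Adj x y ↔
            ∃ p ∈ univ.filter (fun p : Fin k × Cl (Fin b) 4 =>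
              (∃ C ∈ gad (grel G) e p.1 p.2, C.2 0 = x ∧ C.2 1 = y) ∨
              ∃ C ∈ gad (grel G) e p.1 p.2, C.2 0 = y ∧ C.2 1 = x), p.2 ∈ F p.1 := by
          constructor
          · rintro ⟨-, ⟨C, ⟨m, c, hc, hC⟩, h⟩ | ⟨C, ⟨m, c, hc, hC⟩, h⟩⟩
            · exact ⟨(m, c), mem_filter.2 ⟨mem_univ _, Or.inl ⟨C, hC, h⟩⟩, hc⟩
            · exact ⟨(m, c), mem_filter.2 ⟨mem_univ _, Or.inr ⟨C, hC, h⟩⟩, hc⟩
          · rintro ⟨p, hp, hc⟩
            refine ⟨hxy, ?_⟩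
            rcases (mem_filter.1 hp).2 with ⟨C, hC, h⟩ | ⟨C, hC, h⟩
            · exact Or.inl ⟨C, ⟨p.1, p.2, hc, hC⟩, h⟩
            · exact Or.inr ⟨C, ⟨p.1, p.2, hc, hC⟩, h⟩
        rw [← ind_congr h1]
        unfold ind
        by_cases h2 : (gr (inst (grel G) e F)).Adj x y
        · exact (if_pos h2).trans (if_pos h2).symm
        · exact (if_neg h2).trans (if_neg h2).symm
    · exact Or.inr ⟨r, rfl⟩
  · show ¬ Nonempty (gr (inst (grel G) e F) →g G)
    rw [gr_sat G _ (inst_loopless G e he F)]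
    exact hr.2.1 F m h
  · show ¬ ¬ Nonempty (gr (inst (grel G) e F) →g G)
    rw [gr_sat G _ (inst_loopless G e he F)]
    exact hr.2.2 F z hz

/-- the lower bound for graph colouring -/
theorem lower_graph (V : Type) [Fintype V] (a c ξ : ℝ) (ha0 : 0 ≤ a) (ha : a < 1) (hc0 : 0 < c)
    (hc : c < (1 - a) / 52) (hξ : 0 < ξ) :
    ∃ N₀ : ℕ, ∀ N : ℕ, N₀ ≤ N → ∀ G : SimpleGraph V, Dec (grel G) → Nonempty V →
      ∀ (R : Type) [Fintype R] [Nonempty R]
      (f : R → SimpleGraph (Fin N) → ℝ) (l : R → List (SimpleGraph (Fin N) → ℝ))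
      (q : R → List (List ((SimpleGraph (Fin N) → ℝ) × ℝ))),
      (∀ r, FProg (adjInputs N) (l r) (q r)) → (∀ r, f r ∈ l r) → DecidesHom G ξ f →
      (∀ r, (combos (q r) : ℝ) ≤ (N : ℝ) ^ a) →
      ∃ r, (2 : ℝ) ^ ((N : ℝ) ^ c) < (l r).length + wires (q r) := by
  obtain ⟨N₀, hN₀⟩ := lower_gen _ (one_le_M (Fintype.card V)) a c ξ ha0 ha hc0 hc hξ
  refine ⟨N₀, fun N hN G hD hne R _ _ f l q hp hf hdec hcomb => ?_⟩
  exact hN₀ N hN _ (adjInputs N) (fun H => ¬ Nonempty (H →g G))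
    (fun k b hb hkb => red_graph G hD N hb hkb) R f l q
    hp hf (fun F => ⟨fun h => (hdec F).1 (not_not.1 h), (hdec F).2⟩) hcomb

end H630CD
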