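import Pool.Agent.H630CD.Ops
import Pool.Agent.H630SD.T3
import Pool.Agent.H630SD.T6

/-!
# T10: polynomial-size monotone circuits for colourings by bipartite graphs (helper624)
-/

open scoped Classical
open Finset

namespace H630CD

open H630VC H630XR H630SD

/-- the Boolean relation: different -/
def ct10_rel (i : Unit) : Set (Fin ((fun _ : Unit => 2) i) → Bool) := {t | t 0 ≠ t 1}

/-- the empty relation -/
def ct10_emp (i : Unit) : Set (Fin ((fun _ : Unit => 2) i) → Bool) := ∅

theorem ct10_maj : H630SD.Pol ct10_rel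
    (fun x : Fin 3 → Bool => (x 0 && x 1) || (x 0 && x 2) || (x 1 && x 2)) := by
  intro i t ht
  have h0 : t 0 0 ≠ t 0 1 := ht 0
  have h1 : t 1 0 ≠ t 1 1 := ht 1
  have h2 : t 2 0 ≠ t 2 1 := ht 2
  show ((t 0 0 && t 1 0) || (t 0 0 && t 2 0) || (t 1 0 && t 2 0)) ≠
    ((t 0 1 && t 1 1) || (t 0 1 && t 2 1) || (t 1 1 && t 2 1))
  revert h0 h1 h2
  generalize t 0 0 = a0
  generalize t 0 1 = a1
  generalize t 1 0 = b0
  generalize t 1 1 = b1
  generalize t 2 0 = c0
  generalize t 2 1 = c1
  revert a0 a1 b0 b1 c0 c1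
  decide

theorem ct10_const : H630SD.Pol ct10_emp (fun _ : Fin 1 → Bool => false) := by
  intro i t ht
  exact absurd (ht 0) (Set.notMem_empty _)

theorem ct10_edge {V W : Type} (G : SimpleGraph V) (h : G.Colorable 2) {a b : V} (hab : G.Adj a b)
    (F : Set (Con (fun _ : Unit => 2) W)) : Sat (grel G) F ↔ H630SD.Sat ct10_rel F := by
  constructor
  · rintro ⟨x, hx⟩
    obtain ⟨c⟩ := h
    refine ⟨fun v => decide (c (x v) = 0), fun e he => ?_⟩
    have h1 : G.Adj (x (e.2 0)) (x (e.2 1)) := hx e he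
    have h2 : c (x (e.2 0)) ≠ c (x (e.2 1)) := c.valid h1
    show decide (c (x (e.2 0)) = 0) ≠ decide (c (x (e.2 1)) = 0)
    revert h2
    generalize c (x (e.2 0)) = u
    generalize c (x (e.2 1)) = v
    revert u v
    decide
  · rintro ⟨y, hy⟩
    refine ⟨fun v => if y v then b else a, fun e he => ?_⟩
    have h1 : y (e.2 0) ≠ y (e.2 1) := hy e he
    show G.Adj (if y (e.2 0) then b else a) (if y (e.2 1) then b else a)
    cases h2 : y (e.2 0) <;> cases h3 : y (e.2 1)
    · rw [h2, h3] at h1; exact absurd rfl h1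
    · simpa using hab
    · simpa using hab.symm
    · rw [h2, h3] at h1; exact absurd rfl h1

theorem ct10_noedge {V W : Type} [Nonempty V] (G : SimpleGraph V) (h : ∀ a b, ¬ G.Adj a b)
    (F : Set (Con (fun _ : Unit => 2) W)) : Sat (grel G) F ↔ H630SD.Sat ct10_emp F := by
  constructor
  · rintro ⟨x, hx⟩
    refine ⟨fun _ => false, fun e he => ?_⟩
    exact absurd (hx e he) (h _ _)
  · rintro ⟨y, hy⟩
    refine ⟨fun _ => Classical.arbitrary V, fun e he => ?_⟩
    exact absurd (hy e he) (Set.notMem_empty _)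

theorem graph_upper {V : Type} [Finite V] (G : SimpleGraph V) (h : G.Colorable 2) :
    ∃ C : ℕ, ∀ n : ℕ, ∃ l : List (Set (Con (fun _ : Unit => 2) (Fin n)) → ℝ),
      MProg (conBits (fun _ : Unit => 2) (Fin n)) l ∧ l.length ≤ C * (n + 1) ^ C ∧
      (fun F => if Sat (grel G) F then (0 : ℝ) else 1) ∈ l := by
  by_cases hE : ∃ a b, G.Adj a b
  · obtain ⟨a, b, hab⟩ := hE
    obtain ⟨C, hC⟩ := upper_maj (rel := ct10_rel) ct10_maj
    refine ⟨C, fun n => ?_⟩
    obtain ⟨l, h1, h2, h3⟩ := hC n
    refine ⟨l, h1, h2, ?_⟩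
    have e : (fun F : Set (Con (fun _ : Unit => 2) (Fin n)) =>
        if Sat (grel G) F then (0 : ℝ) else 1) =
        fun F => if H630SD.Sat ct10_rel F then (0 : ℝ) else 1 := by
      funext F
      exact if_congr (ct10_edge G h hab F) rfl rfl
    rw [e]; exact h3
  · push Not at hE
    rcases isEmpty_or_nonempty V with hV | hV
    · refine ⟨1, fun n => ?_⟩
      rcases Nat.eq_zero_or_pos n with rfl | hn
      · refine ⟨[fun _ => 0], MProg.input MProg.nil (Or.inr (Or.inl rfl)), by simp, ?_⟩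
        rw [List.mem_singleton]
        funext F
        rw [if_pos]
        refine ⟨fun v => v.elim0, fun e _ => ?_⟩
        exact (e.2 0).elim0
      · refine ⟨[fun _ => 1], MProg.input MProg.nil (Or.inr (Or.inr rfl)), ?_, ?_⟩
        · simp
        · rw [List.mem_singleton]
          funext F
          rw [if_neg]
          rintro ⟨x, _⟩
          exact hV.false (x ⟨0, hn⟩)
    · obtain ⟨C, hC⟩ := upper_const (rel := ct10_emp) false ct10_const
      refine ⟨C, fun n => ?_⟩
      obtain ⟨l, h1, h2, h3⟩ := hC n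
      refine ⟨l, h1, h2, ?_⟩
      have e : (fun F : Set (Con (fun _ : Unit => 2) (Fin n)) =>
          if Sat (grel G) F then (0 : ℝ) else 1) =
          fun F => if H630SD.Sat ct10_emp F then (0 : ℝ) else 1 := by
        funext F
        exact if_congr (ct10_noedge G hE F) rfl rfl
      rw [e]; exact h3

end H630CD
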