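import Pool.Agent.H630CD.Ops

/-!
# The operations on the core
-/

open scoped Classical
open Finset

namespace H630CD

open H630VC H630XR H630SD

theorem ct11_unary {V : Type} {P : Ops V} (hP : Clone P) {e : V → V} (he : Un P e) {n : ℕ}
    {g : (Fin n → V) → V} (hg : g ∈ P n) : (fun y => e (g y)) ∈ P n :=
  hP.2 1 n (fun x => e (x 0)) he (fun _ y => g y) (fun _ => hg)

theorem coreOps_idem {V : Type} (P : Ops V) (e : V → V) : Idem (coreOps P e) := by
  intro m f hf v
  exact hf.2 v

theorem coreOps_clone {V : Type} (P : Ops V) (hP : Clone P) (e : V → V) (he : IsCore P e) :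
    Clone (coreOps P e) := by
  refine ⟨fun m i => ⟨⟨fun x => x i, hP.1 m i, fun x => ((x i).2).symm⟩, fun v => rfl⟩, ?_⟩
  intro m n f hf g hg
  obtain ⟨⟨f0, hf0, hf1⟩, hf2⟩ := hf
  choose g0 hg0 hg1 using fun i => (hg i).1
  refine ⟨⟨fun y => f0 (fun i => e (g0 i y)), ?_, ?_⟩, ?_⟩
  · exact hP.2 m n f0 hf0 (fun i y => e (g0 i y)) (fun i => ct11_unary hP he.1 (hg0 i))
  · intro x
    rw [hf1]
    refine congrArg e (congrArg f0 ?_)
    funext i
    exact hg1 i x
  · intro v
    have : (fun i => g i (fun _ => v)) = fun _ => v := by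
      funext i
      exact (hg i).2 v
    show f (fun i => g i (fun _ => v)) = v
    rw [this]
    exact hf2 v

theorem ct11_vec {V : Type} {p : V → Prop} (x y z : {d : V // p d}) :
    (fun i => ((![x, x, y, y, z, z] : Fin 6 → {d : V // p d}) i : V)) =
      ![(x : V), x, y, y, z, z] := by
  funext i
  fin_cases i <;> rfl

theorem ct11_vec2 {V : Type} {p : V → Prop} (x y z : {d : V // p d}) :
    (fun i => ((![y, z, x, z, x, y] : Fin 6 → {d : V // p d}) i : V)) =
      ![(y : V), z, x, z, x, y] := by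
  funext i
  fin_cases i <;> rfl

theorem ct11_map {V W : Type} (e : V → W) (a b c d f g : V) :
    (fun i => e ((![a, b, c, d, f, g] : Fin 6 → V) i)) = ![e a, e b, e c, e d, e f, e g] := by
  funext i
  fin_cases i <;> rfl

theorem coreOps_siggers {V : Type} (P : Ops V) (hP : Clone P) (e : V → V) (he : IsCore P e) :
    HasSiggers (coreOps P e) ↔ HasSiggers P := by
  constructor
  · rintro ⟨s', ⟨⟨f, hf, hf1⟩, hf2⟩, hs⟩
    refine ⟨fun x => e (f (fun i => e (x i))), ?_, ?_⟩
    · refine ct11_unary hP he.1 ?_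
      exact hP.2 6 6 f hf (fun i x => e (x i)) (fun i => ct11_unary hP he.1 (hP.1 6 i))
    · intro x y z
      have key : ∀ a b c d r t : V, e (f (fun i => e ((![a, b, c, d, r, t] : Fin 6 → V) i))) =
          (s' ![⟨e a, he.2.1 a⟩, ⟨e b, he.2.1 b⟩, ⟨e c, he.2.1 c⟩, ⟨e d, he.2.1 d⟩,
            ⟨e r, he.2.1 r⟩, ⟨e t, he.2.1 t⟩] : V) := by
        intro a b c d r t
        rw [hf1]
        refine congrArg e (congrArg f ?_)
        funext i
        fin_cases i <;> rfl
      show e (f (fun i => e ((![x, x, y, y, z, z] : Fin 6 → V) i))) =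
        e (f (fun i => e ((![y, z, x, z, x, y] : Fin 6 → V) i)))
      rw [key, key, hs]
  · rintro ⟨s, hs, hs1⟩
    have hun : Un P (fun d => s (fun _ => d)) :=
      hP.2 6 1 s hs (fun _ x => x 0) (fun _ => hP.1 1 0)
    obtain ⟨g', hg', hg1⟩ := he.2.2 _ hun
    refine ⟨fun x => ⟨e (g' (s (fun i => (x i : V)))), he.2.1 _⟩, ⟨⟨fun y => g' (s y), ?_, ?_⟩, ?_⟩,
      ?_⟩
    · exact ct11_unary hP hg' hs
    · intro x
      rfl
    · intro v
      apply Subtype.ext
      show e (g' (s (fun _ => (v : V)))) = v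
      have h := hg1 v
      simp only [v.2] at h
      rw [h, v.2]
    · intro x y z
      apply Subtype.ext
      show e (g' (s (fun i => ((![x, x, y, y, z, z] : Fin 6 → {d : V // e d = d}) i : V)))) =
        e (g' (s (fun i => ((![y, z, x, z, x, y] : Fin 6 → {d : V // e d = d}) i : V))))
      rw [ct11_vec, ct11_vec2, hs1]

end H630CD
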