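import Pool.Agent.H630CD.Ops

open scoped Classical
open Finset

namespace H630CD

open H630VC H630XR H630SD

/-- the statement of T1 -/
def ct2_T1 : Prop := ∀ {V ι : Type} [Finite ι] (E : V → V → Prop)
  (_ : ∀ x y, E x y → E y x) (_ : DF E) (h : (ι → Fin 3) → V)
  (_ : ∀ x y, (∀ i, x i ≠ y i) → E (h x) (h y)),
  ∃ I : Set ι, ∀ x y, h x = h y ↔ ∀ i ∈ I, x i = y i

/-- a cube of triangles -/
def ct2_Cube {V : Type} (E : V → V → Prop) (k : ℕ) (j : (Fin k → Fin 3) → V) : Prop :=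
  Function.Injective j ∧ ∀ x y, (∀ i, x i ≠ y i) → E (j x) (j y)

theorem ct2_one {V : Type} (E : V → V → Prop) (hs : ∀ x y, E x y → E y x)
    (hl : ∀ x, ¬ E x x) (ht : Tri E) : ∃ j, ct2_Cube E 1 j := by
  obtain ⟨u, v, w, h1, h2, h3⟩ := ht
  have key : ∀ a b : Fin 3, a ≠ b → E (![u, v, w] a) (![u, v, w] b) := by
    intro a b hab
    fin_cases a <;> fin_cases b
    · exact absurd rfl hab
    · exact h1
    · exact h3
    · exact hs _ _ h1
    · exact absurd rfl hab
    · exact h2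
    · exact hs _ _ h3
    · exact hs _ _ h2
    · exact absurd rfl hab
  refine ⟨fun x => ![u, v, w] (x 0), ?_, fun x y hxy => key _ _ (hxy 0)⟩
  intro x y hxy
  by_contra hne
  have h0 : x 0 ≠ y 0 := by
    intro h0
    apply hne
    funext i
    rw [Subsingleton.elim i 0]
    exact h0
  have h4 := key _ _ h0
  have hxy' : ![u, v, w] (x 0) = ![u, v, w] (y 0) := hxy
  rw [hxy'] at h4
  exact hl _ h4

theorem ct2_bound {V : Type} [Finite V] (E : V → V → Prop) (k : ℕ) (j : (Fin k → Fin 3) → V)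
    (h : ct2_Cube E k j) : k ≤ Nat.card V := by
  have h1 := Nat.card_le_card_of_injective j h.1
  rw [Nat.card_fun, Nat.card_fin, Nat.card_fin] at h1
  exact (Nat.lt_pow_self (by norm_num : 1 < 3)).le.trans h1

theorem ct2_max {V : Type} [Finite V] (E : V → V → Prop) (hs : ∀ x y, E x y → E y x)
    (hl : ∀ x, ¬ E x x) (ht : Tri E) : ∃ k, 1 ≤ k ∧ (∃ j, ct2_Cube E k j) ∧
      ∀ k', (∃ j, ct2_Cube E k' j) → k' ≤ k := by
  let S : Set ℕ := {k | ∃ j, ct2_Cube E k j}
  have h1 : (1 : ℕ) ∈ S := ct2_one E hs hl ht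
  have hb : BddAbove S := ⟨Nat.card V, fun k ⟨j, hj⟩ => ct2_bound E k j hj⟩
  exact ⟨sSup S, le_csSup hb h1, Nat.sSup_mem ⟨1, h1⟩ hb, fun k' hk' => le_csSup hb hk'⟩

theorem ct2_struct (hT : ct2_T1) {V : Type} [Finite V] (C : Ops V) (E : V → V → Prop)
    (hs : ∀ x y, E x y → E y x) (hdf : DF E)
    (hp : Pres C E) (hi : Idem C) (k : ℕ) (j : (Fin k → Fin 3) → V)
    (hj : ct2_Cube E k j) (hmax : ∀ k', (∃ j, ct2_Cube E k' j) → k' ≤ k)
    (m : ℕ) (f : (Fin m → V) → V) (hf : f ∈ C m) :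
    ∃ s : Fin k → Fin m, ∀ X : Fin m → Fin k → Fin 3,
      f (fun t => j (X t)) = j fun c => X (s c) c := by
  obtain ⟨h, hdef⟩ : ∃ h : (Fin m × Fin k → Fin 3) → V,
      ∀ x, h x = f fun t => j fun c => x (t, c) := ⟨_, fun x => rfl⟩
  have hh : ∀ x y, (∀ i, x i ≠ y i) → E (h x) (h y) := by
    intro x y hxy
    rw [hdef, hdef]
    apply hp m f hf
    intro t
    apply hj.2
    intro c
    exact hxy (t, c)
  obtain ⟨I, hI⟩ := hT E hs hdf h hh
  -- the dimension
  obtain ⟨ext, hext, hext'⟩ : ∃ ext : Fin 3 → (I → Fin 3) → (Fin m × Fin k → Fin 3),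
      (∀ d x i (hi : i ∈ I), ext d x i = x ⟨i, hi⟩) ∧ ∀ d x i, i ∉ I → ext d x i = d := by
    refine ⟨fun d x i => if hi : i ∈ I then x ⟨i, hi⟩ else d, ?_, ?_⟩
    · intro d x i hi
      exact dif_pos hi
    · intro d x i hi
      exact dif_neg hi
  have hcard : Nat.card I ≤ k := by
    obtain ⟨ε⟩ : Nonempty (I ≃ Fin (Nat.card I)) := ⟨Finite.equivFin I⟩
    apply hmax
    refine ⟨fun x => h (ext 0 fun i => x (ε i)), ?_, ?_⟩
    · intro x y hxy
      have h1 := (hI _ _).1 hxy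
      funext c
      have h2 := h1 (ε.symm c).1 (ε.symm c).2
      rw [hext _ _ _ (ε.symm c).2, hext _ _ _ (ε.symm c).2] at h2
      have h3 : x (ε (ε.symm c)) = y (ε (ε.symm c)) := h2
      rw [Equiv.apply_symm_apply] at h3
      exact h3
    · intro x y hxy
      have h1 : h (ext 0 fun i => y (ε i)) = h (ext 1 fun i => y (ε i)) := by
        rw [hI]
        intro i hi
        rw [hext 0 _ i hi, hext 1 _ i hi]
      show E (h (ext 0 fun i => x (ε i))) (h (ext 0 fun i => y (ε i)))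
      rw [h1]
      apply hh
      intro i
      by_cases hi : i ∈ I
      · rw [hext 0 _ i hi, hext 1 _ i hi]
        exact hxy _
      · rw [hext' 0 _ i hi, hext' 1 _ i hi]
        decide
  -- each column meets `I`
  have hcol : ∀ c : Fin k, ∃ t : Fin m, (t, c) ∈ I := by
    intro c
    by_contra hcon
    push Not at hcon
    have h1 : h (fun i => (fun _ : Fin k => (0 : Fin 3)) i.2) =
        h (fun i => Function.update (fun _ : Fin k => (0 : Fin 3)) c 1 i.2) := by
      rw [hI]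
      rintro ⟨t, c'⟩ hi
      have hne : c' ≠ c := by
        rintro rfl
        exact hcon t hi
      show (0 : Fin 3) = Function.update (fun _ : Fin k => (0 : Fin 3)) c 1 c'
      rw [Function.update_of_ne hne]
    have h2 : ∀ z : Fin k → Fin 3, h (fun i => z i.2) = j z := by
      intro z
      rw [hdef]
      exact hi m f hf (j z)
    have h1' := (h2 (fun _ => 0)).symm.trans
      (h1.trans (h2 (Function.update (fun _ => 0) c 1)))
    have h3 := congrFun (hj.1 h1') c
    rw [Function.update_self] at h3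
    exact absurd h3 (by decide)
  choose s hsI using hcol
  let g : Fin k → I := fun c => ⟨(s c, c), hsI c⟩
  have hginj : Function.Injective g := by
    intro c c' hcc
    have := congrArg (fun i : I => i.1.2) hcc
    exact this
  have hgsurj : Function.Surjective g := by
    have h1 : Nat.card (Fin k) = Nat.card I := by
      apply le_antisymm (Nat.card_le_card_of_injective g hginj)
      rw [Nat.card_fin]
      exact hcard
    exact ((Nat.bijective_iff_injective_and_card g).2 ⟨hginj, h1⟩).2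
  refine ⟨s, fun X => ?_⟩
  have h2 : ∀ z : Fin k → Fin 3, h (fun i => z i.2) = j z := by
    intro z
    rw [hdef]
    exact hi m f hf (j z)
  have h3 : h (fun i => X i.1 i.2) = h (fun i => (fun c => X (s c) c) i.2) := by
    rw [hI]
    intro i hiI
    obtain ⟨c, hc⟩ := hgsurj ⟨i, hiI⟩
    have hc' : (s c, c) = i := congrArg Subtype.val hc
    subst hc'
    rfl
  rw [hdef] at h3
  exact h3.trans (h2 fun c => X (s c) c)

theorem cube_proj_of
    (hT : ∀ {V ι : Type} [Finite ι] (E : V → V → Prop)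
      (_ : ∀ x y, E x y → E y x) (_ : DF E) (h : (ι → Fin 3) → V)
      (_ : ∀ x y, (∀ i, x i ≠ y i) → E (h x) (h y)),
      ∃ I : Set ι, ∀ x y, h x = h y ↔ ∀ i ∈ I, x i = y i) {V : Type} [Finite V] (C : Ops V) (E : V → V → Prop)
    (hs : ∀ x y, E x y → E y x) (hl : ∀ x, ¬ E x x) (hdf : DF E) (ht : Tri E)
    (hp : Pres C E) (hi : Idem C) : Proj2 C := by
  obtain ⟨k, hk, ⟨j, hj⟩, hmax⟩ := ct2_max E hs hl ht
  let c0 : Fin k := ⟨0, hk⟩
  have hcls : ∀ y : Fin k → Fin 3, (∃ z, j y = j z ∧ z c0 = 0) ↔ y c0 = 0 := by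
    intro y
    constructor
    · rintro ⟨z, hz, hz0⟩
      rw [hj.1 hz]
      exact hz0
    · exact fun h => ⟨y, rfl, h⟩
  refine ⟨Set.range j, fun v => decide (∃ z, v = j z ∧ z c0 = 0), ?_, ?_, ?_⟩
  · refine ⟨j fun _ => 1, ⟨_, rfl⟩, ?_⟩
    rw [decide_eq_false_iff_not, hcls]
    decide
  · refine ⟨j fun _ => 0, ⟨_, rfl⟩, ?_⟩
    rw [decide_eq_true_eq, hcls]
  · intro m f hf
    obtain ⟨s, hsX⟩ := ct2_struct hT C E hs hdf hp hi k j hj hmax m f hf
    refine ⟨s c0, fun x hx => ?_⟩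
    choose X hX using hx
    have h1 : f x = j fun c => X (s c) c := by
      rw [← hsX]
      congr 1
      funext t
      exact (hX t).symm
    refine ⟨⟨_, h1.symm⟩, ?_⟩
    rw [h1]
    show decide (∃ z, (j fun c => X (s c) c) = j z ∧ z c0 = 0) =
      decide (∃ z, x (s c0) = j z ∧ z c0 = 0)
    rw [← hX (s c0)]
    exact Bool.decide_congr ((hcls _).trans (hcls (X (s c0))).symm)

end H630CD
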