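import Pool.Agent.H630CD.Ops

/-!
# Projections for subsets and quotients
-/

open scoped Classical
open Finset
namespace H630CD
open H630VC H630XR H630SD

theorem proj2_sub {V : Type} (C : Ops V) (W : Set V) (hW : Closed C W)
    (h : Proj2 (subOps C W)) : Proj2 C := by
  obtain ⟨B, c, ⟨v0, hv0, hc0⟩, ⟨v1, hv1, hc1⟩, hB⟩ := h
  refine ⟨{v | ∃ h : v ∈ W, (⟨v, h⟩ : W) ∈ B}, fun v => if h : v ∈ W then c ⟨v, h⟩ else false,
    ⟨v0, ⟨v0.2, hv0⟩, ?_⟩, ⟨v1, ⟨v1.2, hv1⟩, ?_⟩, ?_⟩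
  · exact (dif_pos v0.2).trans hc0
  · exact (dif_pos v1.2).trans hc1
  · intro m f hf
    have hg : (fun x : Fin m → W => (⟨f (fun i => x i), hW m f hf _ (fun i => (x i).2)⟩ : W)) ∈
        subOps C W m := ⟨f, hf, fun x => rfl⟩
    obtain ⟨i, hi⟩ := hB m _ hg
    refine ⟨i, fun x hx => ?_⟩
    choose hxW hxB using hx
    obtain ⟨h1, h2⟩ := hi (fun j => ⟨x j, hxW j⟩) hxB
    have hfW : f x ∈ W := hW m f hf x hxW
    refine ⟨⟨hfW, h1⟩, ?_⟩
    have e1 : (fun v => if h : v ∈ W then c ⟨v, h⟩ else false) (f x) = c ⟨f x, hfW⟩ := dif_pos hfW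
    have e2 : (fun v => if h : v ∈ W then c ⟨v, h⟩ else false) (x i) = c ⟨x i, hxW i⟩ :=
      dif_pos (hxW i)
    exact e1.trans (h2.trans e2.symm)

theorem subOps_idem {V : Type} (C : Ops V) (W : Set V) (h : Idem C) : Idem (subOps C W) := by
  rintro m g ⟨f, hf, hg⟩ v
  apply Subtype.ext
  rw [hg]
  exact h m f hf v

theorem subOps_pres {V : Type} (C : Ops V) (W : Set V) (E : V → V → Prop) (h : Pres C E) :
    Pres (subOps C W) (fun x y : W => E x y) := by
  rintro m g ⟨f, hf, hg⟩ x y hxy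
  show E (g x) (g y)
  rw [hg, hg]
  exact h m f hf _ _ hxy

theorem proj2_quot {V : Type} (C : Ops V) (θ : Setoid V)
    (hθ : Pres C (fun x y => θ x y)) (h : Proj2 (quoOps C θ)) : Proj2 C := by
  obtain ⟨B, c, ⟨q0, hq0, hc0⟩, ⟨q1, hq1, hc1⟩, hB⟩ := h
  refine ⟨{v | Quotient.mk θ v ∈ B}, fun v => c (Quotient.mk θ v),
    ⟨q0.out, ?_, ?_⟩, ⟨q1.out, ?_, ?_⟩, ?_⟩
  · show Quotient.mk θ q0.out ∈ B
    rw [Quotient.out_eq]; exact hq0
  · show c (Quotient.mk θ q0.out) = false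
    rw [Quotient.out_eq]; exact hc0
  · show Quotient.mk θ q1.out ∈ B
    rw [Quotient.out_eq]; exact hq1
  · show c (Quotient.mk θ q1.out) = true
    rw [Quotient.out_eq]; exact hc1
  · intro m f hf
    have hg : (fun q : Fin m → Quotient θ => Quotient.mk θ (f (fun i => (q i).out))) ∈
        quoOps C θ m := by
      refine ⟨f, hf, fun x => ?_⟩
      exact Quotient.sound (hθ m f hf _ _ (fun i => Quotient.exact (Quotient.out_eq _)))
    obtain ⟨i, hi⟩ := hB m _ hg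
    refine ⟨i, fun x hx => ?_⟩
    obtain ⟨h1, h2⟩ := hi (fun j => Quotient.mk θ (x j)) hx
    have e : Quotient.mk θ (f (fun i => (Quotient.mk θ (x i)).out)) = Quotient.mk θ (f x) :=
      Quotient.sound (hθ m f hf _ _ (fun i => Quotient.exact (Quotient.out_eq _)))
    rw [e] at h1 h2
    exact ⟨h1, h2⟩

theorem quoOps_idem {V : Type} (C : Ops V) (θ : Setoid V) (h : Idem C) :
    Idem (quoOps C θ) := by
  rintro m g ⟨f, hf, hg⟩ v
  have e : v = Quotient.mk θ v.out := (Quotient.out_eq v).symm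
  rw [e, hg (fun _ => v.out), h m f hf v.out]

theorem quoOps_pres {V : Type} (C : Ops V) (θ : Setoid V) (E : V → V → Prop) (h : Pres C E) :
    Pres (quoOps C θ) (fun a b => ∃ x y, Quotient.mk θ x = a ∧ Quotient.mk θ y = b ∧ E x y) := by
  rintro m g ⟨f, hf, hg⟩ a b hab
  choose x y hx hy hE using hab
  have ha : a = fun i => Quotient.mk θ (x i) := by funext i; exact (hx i).symm
  have hb : b = fun i => Quotient.mk θ (y i) := by funext i; exact (hy i).symm
  refine ⟨f x, f y, ?_, ?_, h m f hf x y hE⟩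
  · rw [ha, hg]
  · rw [hb, hg]

end H630CD
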