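import Pool.Agent.H630CD.Ops

/-!
# No triangle: enlarge the relation
-/

open scoped Classical
open Finset

namespace H630CD

open H630VC H630XR H630SD

theorem ct4_noWalk {V : Type} (E : V → V → Prop) (hs : ∀ x y, E x y → E y x)
    (hl : ∀ x, ¬ E x x) (ht : ¬ Tri E) (hE : ∀ x u v y, E x u → E u v → E v y → E x y) :
    ∀ (n : ℕ) (w : ℕ → V), (∀ i, i < 2 * n + 1 → E (w i) (w (i + 1))) → w (2 * n + 1) = w 0 →
      False := by
  intro n
  induction n with
  | zero =>
    intro w h1 h2
    have h := h1 0 (by omega)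
    simp only [Nat.mul_zero, Nat.zero_add] at h2
    rw [Nat.zero_add, h2] at h
    exact hl _ h
  | succ n ih =>
    intro w h1 h2
    rcases Nat.eq_zero_or_pos n with hn | hn
    · subst hn
      have a0 := h1 0 (by omega)
      have a1 := h1 1 (by omega)
      have a2 := h1 2 (by omega)
      have h3 : w 3 = w 0 := h2
      have a2' : E (w 2) (w 3) := a2
      rw [h3] at a2'
      exact ht ⟨w 0, w 1, w 2, a0, a1, hs _ _ a2'⟩
    · refine ih (fun i => if i = 0 then w 0 else w (i + 2)) ?_ ?_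
      · intro i hi
        by_cases h0 : i = 0
        · subst h0
          have a0 : E (w 0) (w 1) := h1 0 (by omega)
          have a1 : E (w 1) (w 2) := h1 1 (by omega)
          have a2 : E (w 2) (w 3) := h1 2 (by omega)
          have := hE _ _ _ _ a0 a1 a2
          simpa using this
        · have h : E (w (i + 2)) (w (i + 2 + 1)) := h1 (i + 2) (by omega)
          have e1 : (if i = 0 then w 0 else w (i + 2)) = w (i + 2) := if_neg h0
          have e2 : (if i + 1 = 0 then w 0 else w (i + 1 + 2)) = w (i + 1 + 2) :=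
            if_neg (by omega)
          show E (if i = 0 then w 0 else w (i + 2)) (if i + 1 = 0 then w 0 else w (i + 1 + 2))
          rw [e1, e2]
          have e3 : i + 1 + 2 = i + 2 + 1 := by omega
          rw [e3]
          exact h
      · show (if 2 * n + 1 = 0 then w 0 else w (2 * n + 1 + 2)) = (if 0 = 0 then w 0 else w (0 + 2))
        rw [if_neg (by omega), if_pos rfl]
        have e : 2 * n + 1 + 2 = 2 * (n + 1) + 1 := by omega
        rw [e]
        exact h2

theorem tri_or_bigger {V : Type} (E : V → V → Prop) (hs : ∀ x y, E x y → E y x)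
    (hl : ∀ x, ¬ E x x) (ho : OddWalk E) (ht : ¬ Tri E) :
    ∃ E' : V → V → Prop, (∀ x y, E x y → E' x y) ∧ (∃ x y, E' x y ∧ ¬ E x y) ∧
      (∀ x y, E' x y → E' y x) ∧ (∀ x, ¬ E' x x) ∧ OddWalk E' ∧
      ∀ C : Ops V, Pres C E → Pres C E' := by
  refine ⟨fun x y => ∃ u v, E x u ∧ E u v ∧ E v y, ?_, ?_, ?_, ?_, ?_, ?_⟩
  · intro x y h
    exact ⟨y, x, h, hs _ _ h, h⟩
  · by_contra hcon
    push Not at hcon
    obtain ⟨n, w, h1, h2⟩ := ho
    exact ct4_noWalk E hs hl ht (fun x u v y a b c => hcon x y ⟨u, v, a, b, c⟩) n w h1 h2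
  · rintro x y ⟨u, v, a, b, c⟩
    exact ⟨v, u, hs _ _ c, hs _ _ b, hs _ _ a⟩
  · rintro x ⟨u, v, a, b, c⟩
    exact ht ⟨x, u, v, a, b, hs _ _ c⟩
  · obtain ⟨n, w, h1, h2⟩ := ho
    exact ⟨n, w, fun i hi => ⟨w (i + 1), w i, h1 i hi, hs _ _ (h1 i hi), h1 i hi⟩, h2⟩
  · intro C hC m f hf x y hxy
    choose u v h using hxy
    exact ⟨f u, f v, hC m f hf x u (fun i => (h i).1), hC m f hf u v (fun i => (h i).2.1),
      hC m f hf v y (fun i => (h i).2.2)⟩

end H630CD
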