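import Pool.Agent.H630CD.Ops

/-!
# With triangles: a closed proper subset, a congruence, or diamond-free
-/

open scoped Classical
open Finset

namespace H630CD

open H630VC H630XR H630SD

/-- two elements with two adjacent common neighbours -/
def ct5_D {V : Type} (E : V → V → Prop) (x y : V) : Prop :=
  ∃ u v, E u v ∧ E x u ∧ E x v ∧ E y u ∧ E y v

/-- the powers of `ct5_D` -/
def ct5_P {V : Type} (E : V → V → Prop) : ℕ → V → V → Prop
  | 0 => fun x y => x = y
  | n + 1 => fun x z => ∃ y, ct5_P E n x y ∧ ct5_D E y z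

theorem ct5_D_symm {V : Type} {E : V → V → Prop} {x y : V} (h : ct5_D E x y) : ct5_D E y x := by
  obtain ⟨u, v, h1, h2, h3, h4, h5⟩ := h
  exact ⟨u, v, h1, h4, h5, h2, h3⟩

theorem ct5_D_pres {V : Type} {C : Ops V} {E : V → V → Prop} (hp : Pres C E) :
    Pres C (ct5_D E) := by
  intro m f hf x y h
  choose u v h1 h2 h3 h4 h5 using h
  exact ⟨f u, f v, hp m f hf _ _ h1, hp m f hf _ _ h2, hp m f hf _ _ h3, hp m f hf _ _ h4,
    hp m f hf _ _ h5⟩

theorem ct5_P_pres {V : Type} {C : Ops V} {E : V → V → Prop} (hp : Pres C E) (n : ℕ) :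
    Pres C (ct5_P E n) := by
  induction n with
  | zero =>
    intro m f hf x y h
    have h2 : x = y := funext h
    show f x = f y
    rw [h2]
  | succ n ih =>
    intro m f hf x y h
    choose z h1 h2 using h
    exact ⟨f z, ih m f hf _ _ h1, ct5_D_pres hp m f hf _ _ h2⟩

theorem ct5_P_mono {V : Type} {E : V → V → Prop} (hr : ∀ v, ct5_D E v v) {m n : ℕ} (h : m ≤ n)
    {x y : V} (hx : ct5_P E m x y) : ct5_P E n x y := by
  induction n, h using Nat.le_induction with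
  | base => exact hx
  | succ n _ ih => exact ⟨y, ih, hr y⟩

theorem ct5_P_add {V : Type} {E : V → V → Prop} {m : ℕ} {x y : V} (h : ct5_P E m x y) (n : ℕ) :
    ∀ z : V, ct5_P E n y z → ct5_P E (m + n) x z := by
  induction n with
  | zero =>
    intro z hz
    have hz' : y = z := hz
    rw [← hz']
    exact h
  | succ n ih =>
    rintro z ⟨w, hw, hz⟩
    exact ⟨w, ih w hw, hz⟩

theorem ct5_P_symm {V : Type} {E : V → V → Prop} (n : ℕ) :
    ∀ x y : V, ct5_P E n x y → ct5_P E n y x := by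
  induction n with
  | zero =>
    intro x y h
    exact Eq.symm h
  | succ n ih =>
    rintro x z ⟨y, hy, hz⟩
    have h1 : ct5_P E 1 z y := ⟨z, rfl, ct5_D_symm hz⟩
    have h2 := ct5_P_add h1 n x (ih x y hy)
    rw [Nat.add_comm] at h2
    exact h2

theorem tri_steps {V : Type} [Finite V] (C : Ops V) (E : V → V → Prop)
    (hs : ∀ x y, E x y → E y x) (hl : ∀ x, ¬ E x x) (ht : Tri E) (hp : Pres C E) (hi : Idem C) :
    (∃ W : Set V, W ≠ Set.univ ∧ Closed C W ∧ Tri (fun x y : W => E x y)) ∨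
    (∃ θ : Setoid V, (∃ x y, x ≠ y ∧ θ x y) ∧ Pres C (fun x y => θ x y) ∧
      ∀ x y, E x y → ¬ θ x y) ∨
    DF E := by
  by_cases hT : ∀ v, ∃ u w, E v u ∧ E u w ∧ E v w
  swap
  · left
    refine ⟨{v | ∃ u w, E v u ∧ E u w ∧ E v w}, ?_, ?_, ?_⟩
    · intro h
      apply hT
      intro v
      have : v ∈ {v | ∃ u w, E v u ∧ E u w ∧ E v w} := by
        rw [h]
        exact Set.mem_univ v
      exact this
    · intro m f hf x hx
      choose u w h1 h2 h3 using hx
      exact ⟨f u, f w, hp m f hf _ _ h1, hp m f hf _ _ h2, hp m f hf _ _ h3⟩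
    · obtain ⟨u, v, w, h1, h2, h3⟩ := ht
      exact ⟨⟨u, v, w, h1, h2, h3⟩, ⟨v, u, w, hs _ _ h1, h3, h2⟩,
        ⟨w, u, v, hs _ _ h3, h1, hs _ _ h2⟩, h1, h2, h3⟩
  have hr : ∀ v, ct5_D E v v := by
    intro v
    obtain ⟨u, w, h1, h2, h3⟩ := hT v
    exact ⟨u, w, h2, h1, h3, h1, h3⟩
  by_cases hN : ∃ n, ∃ a b, E a b ∧ ct5_P E n a b
  · left
    obtain ⟨a, b, hab, hP⟩ := Nat.find_spec hN
    have hmin : ∀ m, m < Nat.find hN → ∀ a b, E a b → ¬ ct5_P E m a b := by
      intro m hm a b h1 h2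
      exact Nat.find_min hN hm ⟨a, b, h1, h2⟩
    obtain ⟨k, hk⟩ : ∃ k, Nat.find hN = k + 1 := by
      rcases Nat.eq_zero_or_pos (Nat.find hN) with h0 | h0
      · exfalso
        rw [h0] at hP
        have hP' : a = b := hP
        rw [hP'] at hab
        exact hl b hab
      · exact ⟨Nat.find hN - 1, by omega⟩
    rw [hk] at hP hmin
    obtain ⟨y, hy, u, v, h1, h2, h3, h4, h5⟩ := hP
    have haa : ct5_P E k a a := ct5_P_mono hr (Nat.zero_le k) rfl
    refine ⟨{z | ∃ y', ct5_P E k a y' ∧ E y' z}, ?_, ?_, ?_⟩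
    · intro h
      have : a ∈ {z | ∃ y', ct5_P E k a y' ∧ E y' z} := by
        rw [h]
        exact Set.mem_univ a
      obtain ⟨y', hy1, hy2⟩ := this
      exact hmin k (Nat.lt_succ_self k) a y' (hs _ _ hy2) hy1
    · intro m f hf x hx
      choose y' hy1 hy2 using hx
      refine ⟨f y', ?_, hp m f hf _ _ hy2⟩
      have := ct5_P_pres hp k m f hf (fun _ => a) y' hy1
      rw [hi m f hf a] at this
      exact this
    · exact ⟨⟨u, y, hy, h2⟩, ⟨v, y, hy, h3⟩, ⟨b, a, haa, hab⟩, h1, hs _ _ h5, hs _ _ h4⟩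
  · right
    let θ : Setoid V :=
      { r := fun x y => ∃ n, ct5_P E n x y
        iseqv := ⟨fun x => ⟨0, rfl⟩, fun ⟨n, h⟩ => ⟨n, ct5_P_symm n _ _ h⟩,
          fun ⟨m, h1⟩ ⟨n, h2⟩ => ⟨m + n, ct5_P_add h1 n _ h2⟩⟩ }
    by_cases hne : ∃ x y, x ≠ y ∧ ∃ n, ct5_P E n x y
    · left
      refine ⟨θ, hne, ?_, ?_⟩
      · intro m f hf x y h
        have h' : ∀ i, ∃ n, ct5_P E n (x i) (y i) := h
        choose n hn using h'
        refine ⟨univ.sup n, ct5_P_pres hp _ m f hf x y fun i => ?_⟩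
        exact ct5_P_mono hr (Finset.le_sup (mem_univ i)) (hn i)
      · rintro x y hxy ⟨n, hn⟩
        exact hN ⟨n, x, y, hxy, hn⟩
    · right
      intro u v x y huv hxu hxv hyu hyv
      by_contra hxy
      exact hne ⟨x, y, hxy, 1, x, rfl, u, v, huv, hxu, hxv, hyu, hyv⟩

end H630CD
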