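import Pool.Agent.H630CD.Ops

open scoped Classical
open Finset

namespace H630CD

open H630VC H630XR H630SD

/-- a triangle gives an odd closed walk -/
theorem ct6_walk {V : Type} (E : V → V → Prop) (hs : ∀ x y, E x y → E y x) (ht : Tri E) :
    OddWalk E := by
  obtain ⟨u, v, w, h1, h2, h3⟩ := ht
  refine ⟨1, fun i => if i = 0 then u else if i = 1 then v else if i = 2 then w else u, ?_, ?_⟩
  · intro i hi
    have hi' : i = 0 ∨ i = 1 ∨ i = 2 := by omega
    rcases hi' with rfl | rfl | rfl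
    · simpa using h1
    · simpa using h2
    · simpa using hs _ _ h3
  · simp

/-- the induction -/
theorem ct6_main
    (h2 : ∀ (V : Type) [Finite V] (C : Ops V) (E : V → V → Prop),
      (∀ x y, E x y → E y x) → (∀ x, ¬ E x x) → DF E → Tri E → Pres C E → Idem C → Proj2 C)
    (h3a : ∀ (V : Type) (C : Ops V) (W : Set V), Closed C W → Proj2 (subOps C W) → Proj2 C)
    (h3b : ∀ (V : Type) (C : Ops V) (W : Set V), Idem C → Idem (subOps C W))
    (h3c : ∀ (V : Type) (C : Ops V) (W : Set V) (E : V → V → Prop), Pres C E →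
      Pres (subOps C W) (fun x y : W => E x y))
    (h3d : ∀ (V : Type) (C : Ops V) (θ : Setoid V), Pres C (fun x y => θ x y) →
      Proj2 (quoOps C θ) → Proj2 C)
    (h3e : ∀ (V : Type) (C : Ops V) (θ : Setoid V), Idem C → Idem (quoOps C θ))
    (h3f : ∀ (V : Type) (C : Ops V) (θ : Setoid V) (E : V → V → Prop), Pres C E →
      Pres (quoOps C θ)
        (fun a b => ∃ x y, Quotient.mk θ x = a ∧ Quotient.mk θ y = b ∧ E x y))
    (h4 : ∀ (V : Type) (E : V → V → Prop), (∀ x y, E x y → E y x) → (∀ x, ¬ E x x) →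
      OddWalk E → ¬ Tri E →
      ∃ E' : V → V → Prop, (∀ x y, E x y → E' x y) ∧ (∃ x y, E' x y ∧ ¬ E x y) ∧
        (∀ x y, E' x y → E' y x) ∧ (∀ x, ¬ E' x x) ∧ OddWalk E' ∧
        ∀ C : Ops V, Pres C E → Pres C E')
    (h5 : ∀ (V : Type) [Finite V] (C : Ops V) (E : V → V → Prop),
      (∀ x y, E x y → E y x) → (∀ x, ¬ E x x) → Tri E → Pres C E → Idem C →
      (∃ W : Set V, W ≠ Set.univ ∧ Closed C W ∧ Tri (fun x y : W => E x y)) ∨
      (∃ θ : Setoid V, (∃ x y, x ≠ y ∧ θ x y) ∧ Pres C (fun x y => θ x y) ∧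
        ∀ x y, E x y → ¬ θ x y) ∨
      DF E) (n : ℕ) :
    ∀ (V : Type) [Finite V], Nat.card V = n → ∀ C : Ops V, Idem C → ∀ (k : ℕ)
      (E : V → V → Prop), {p : V × V | ¬ E p.1 p.2}.ncard = k → (∀ x y, E x y → E y x) →
      (∀ x, ¬ E x x) → OddWalk E → Pres C E → Proj2 C := by
  induction n using Nat.strong_induction_on with
  | _ n IH =>
    intro V _ hV C hi k
    induction k using Nat.strong_induction_on with
    | _ k ih =>
      intro E hk hs hl ho hp
      by_cases ht : Tri E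
      · rcases h5 V C E hs hl ht hp hi with ⟨W, hW, hcl, hWt⟩ | ⟨θ, ⟨x0, y0, hxy, hθ0⟩, hθ, hno⟩ | hdf
        · have hcard : Nat.card W < n := by
            rw [← hV]
            have h6 : W.ncard < Nat.card V := Set.ncard_lt_card hW
            exact h6
          have hsW : ∀ x y : W, E x y → E y x := fun x y h => hs _ _ h
          exact h3a V C W hcl (IH (Nat.card W) hcard W rfl (subOps C W) (h3b V C W hi) _
            (fun x y : W => E x y) rfl hsW (fun x => hl x)
            (ct6_walk (fun x y : W => E x y) hsW hWt) (h3c V C W E hp))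
        · have hcard : Nat.card (Quotient θ) < n := by
            rw [← hV]
            haveI : Fintype V := Fintype.ofFinite V
            haveI : Fintype (Quotient θ) := Fintype.ofFinite _
            rw [Nat.card_eq_fintype_card, Nat.card_eq_fintype_card]
            refine Fintype.card_lt_of_surjective_not_injective (Quotient.mk θ)
              Quotient.mk_surjective ?_
            intro hinj
            exact hxy (hinj (Quotient.sound hθ0))
          haveI : Finite (Quotient θ) := inferInstance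
          have hsQ : ∀ a b : Quotient θ,
              (∃ x y, Quotient.mk θ x = a ∧ Quotient.mk θ y = b ∧ E x y) →
              (∃ x y, Quotient.mk θ x = b ∧ Quotient.mk θ y = a ∧ E x y) := by
            rintro a b ⟨x, y, hx, hy, hxy⟩
            exact ⟨y, x, hy, hx, hs _ _ hxy⟩
          refine h3d V C θ hθ (IH (Nat.card (Quotient θ)) hcard (Quotient θ) rfl (quoOps C θ)
            (h3e V C θ hi) _
            (fun a b => ∃ x y, Quotient.mk θ x = a ∧ Quotient.mk θ y = b ∧ E x y) rfl hsQ ?_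
            (ct6_walk _ hsQ ?_) (h3f V C θ E hp))
          · rintro a ⟨x, y, hx, hy, hxy⟩
            exact hno x y hxy (Quotient.exact (hx.trans hy.symm))
          · obtain ⟨u, v, w, e1, e2, e3⟩ := ht
            exact ⟨Quotient.mk θ u, Quotient.mk θ v, Quotient.mk θ w, ⟨u, v, rfl, rfl, e1⟩,
              ⟨v, w, rfl, rfl, e2⟩, ⟨u, w, rfl, rfl, e3⟩⟩
        · exact h2 V C E hs hl hdf ht hp hi
      · obtain ⟨E', g1, ⟨a, b, g2, g2'⟩, g3, g4, g5, g6⟩ := h4 V E hs hl ho ht
        have hlt : {p : V × V | ¬ E' p.1 p.2}.ncard < k := by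
          rw [← hk]
          refine Set.ncard_lt_ncard ?_ (Set.toFinite _)
          refine ⟨fun p hp' hE => hp' (g1 _ _ hE), fun hsub => ?_⟩
          have h7 : ((a, b) : V × V) ∈ {p : V × V | ¬ E p.1 p.2} := g2'
          exact hsub h7 g2
        exact ih _ hlt E' rfl g3 g4 g5 (g6 C hp)

/-- T6, with the statements of T2, T3, T4, T5 as hypotheses -/
theorem loop_lemma_of
    (h2 : ∀ (V : Type) [Finite V] (C : Ops V) (E : V → V → Prop),
      (∀ x y, E x y → E y x) → (∀ x, ¬ E x x) → DF E → Tri E → Pres C E → Idem C → Proj2 C)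
    (h3a : ∀ (V : Type) (C : Ops V) (W : Set V), Closed C W → Proj2 (subOps C W) → Proj2 C)
    (h3b : ∀ (V : Type) (C : Ops V) (W : Set V), Idem C → Idem (subOps C W))
    (h3c : ∀ (V : Type) (C : Ops V) (W : Set V) (E : V → V → Prop), Pres C E →
      Pres (subOps C W) (fun x y : W => E x y))
    (h3d : ∀ (V : Type) (C : Ops V) (θ : Setoid V), Pres C (fun x y => θ x y) →
      Proj2 (quoOps C θ) → Proj2 C)
    (h3e : ∀ (V : Type) (C : Ops V) (θ : Setoid V), Idem C → Idem (quoOps C θ))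
    (h3f : ∀ (V : Type) (C : Ops V) (θ : Setoid V) (E : V → V → Prop), Pres C E →
      Pres (quoOps C θ)
        (fun a b => ∃ x y, Quotient.mk θ x = a ∧ Quotient.mk θ y = b ∧ E x y))
    (h4 : ∀ (V : Type) (E : V → V → Prop), (∀ x y, E x y → E y x) → (∀ x, ¬ E x x) →
      OddWalk E → ¬ Tri E →
      ∃ E' : V → V → Prop, (∀ x y, E x y → E' x y) ∧ (∃ x y, E' x y ∧ ¬ E x y) ∧
        (∀ x y, E' x y → E' y x) ∧ (∀ x, ¬ E' x x) ∧ OddWalk E' ∧
        ∀ C : Ops V, Pres C E → Pres C E')
    (h5 : ∀ (V : Type) [Finite V] (C : Ops V) (E : V → V → Prop),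
      (∀ x y, E x y → E y x) → (∀ x, ¬ E x x) → Tri E → Pres C E → Idem C →
      (∃ W : Set V, W ≠ Set.univ ∧ Closed C W ∧ Tri (fun x y : W => E x y)) ∨
      (∃ θ : Setoid V, (∃ x y, x ≠ y ∧ θ x y) ∧ Pres C (fun x y => θ x y) ∧
        ∀ x y, E x y → ¬ θ x y) ∨
      DF E)
    {V : Type} [Finite V] (C : Ops V) (E : V → V → Prop)
    (hs : ∀ x y, E x y → E y x) (hl : ∀ x, ¬ E x x) (ho : OddWalk E)
    (hp : Pres C E) (hi : Idem C) : Proj2 C :=
  ct6_main h2 h3a h3b h3c h3d h3e h3f h4 h5 (Nat.card V) V rfl C hi _ E rfl hs hl ho hp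

end H630CD
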