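import Pool.Agent.H630CD.Ops

/-!
# Existence of a core
-/

open scoped Classical
open Finset

namespace H630CD

open H630VC H630XR H630SD

theorem ct7_un_comp {V : Type} {P : Ops V} (hP : Clone P) {f g : V → V} (hf : Un P f)
    (hg : Un P g) : Un P (fun v => f (g v)) :=
  hP.2 1 1 (fun x => f (x 0)) hf (fun _ x => g (x 0)) (fun _ => hg)

theorem ct7_un_iter {V : Type} {P : Ops V} (hP : Clone P) {f : V → V} (hf : Un P f) (k : ℕ) :
    Un P (f^[k]) := by
  induction k with
  | zero => exact hP.1 1 0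
  | succ k ih =>
    rw [Function.iterate_succ]
    exact ct7_un_comp (f := f^[k]) (g := f) hP ih hf

theorem ct7_iter {V : Type} [Finite V] (R : Set V) (p : V → V) (h : p '' R = R) :
    ∃ k, 0 < k ∧ ∀ v ∈ R, p^[k] v = v := by
  have hmap : ∀ v : R, p v ∈ R := fun v => by
    have h1 : p v ∈ p '' R := Set.mem_image_of_mem p v.2
    rwa [h] at h1
  have hsurj : Function.Surjective (fun v : R => (⟨p v, hmap v⟩ : R)) := by
    rintro ⟨w, hw⟩
    have h1 : w ∈ p '' R := by rwa [h]
    obtain ⟨v, hv, hvw⟩ := h1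
    exact ⟨⟨v, hv⟩, Subtype.ext hvw⟩
  have hinj : Function.Injective (fun v : R => (⟨p v, hmap v⟩ : R)) :=
    Finite.injective_iff_surjective.2 hsurj
  let σ : Equiv.Perm R := Equiv.ofBijective _ ⟨hinj, hsurj⟩
  have hσ : ∀ n : ℕ, ∀ v : R, (((σ ^ n) v : R) : V) = p^[n] v := by
    intro n
    induction n with
    | zero => intro v; rfl
    | succ n ih =>
      intro v
      rw [pow_succ, Equiv.Perm.mul_apply, ih, Function.iterate_succ_apply]
      rfl
  refine ⟨orderOf σ, orderOf_pos σ, fun v hv => ?_⟩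
  have h1 := hσ (orderOf σ) ⟨v, hv⟩
  rw [pow_orderOf_eq_one] at h1
  exact h1.symm

theorem core_exists {V : Type} [Finite V] (P : Ops V) (hP : Clone P) : ∃ e, IsCore P e := by
  have hex : ∃ n : ℕ, ∃ e : V → V, Un P e ∧ (Set.range e).ncard = n :=
    ⟨_, id, hP.1 1 0, rfl⟩
  obtain ⟨e0, he0, hn0⟩ := Nat.find_spec hex
  have hmin : ∀ e : V → V, Un P e → (Set.range e0).ncard ≤ (Set.range e).ncard := fun e he => by
    rw [hn0]
    exact Nat.find_min' hex ⟨e, he, rfl⟩
  have honto : ∀ g : V → V, Un P g → (∀ v, g v ∈ Set.range e0) →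
      g '' Set.range e0 = Set.range e0 := by
    intro g hg hgR
    apply Set.eq_of_subset_of_ncard_le
    · rintro _ ⟨v, -, rfl⟩
      exact hgR v
    · have h1 := hmin _ (ct7_un_comp hP hg he0)
      have h2 : g '' Set.range e0 = Set.range (fun v => g (e0 v)) := (Set.range_comp g e0).symm
      rw [h2]
      exact h1
    · exact Set.toFinite _
  obtain ⟨k, hk, hkR⟩ := ct7_iter (Set.range e0) e0 (honto e0 he0 fun v => Set.mem_range_self v)
  obtain ⟨k', rfl⟩ : ∃ k', k = k' + 1 := ⟨k - 1, by omega⟩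
  have heR : ∀ d, e0^[k' + 1] d ∈ Set.range e0 := fun d => by
    rw [Function.iterate_succ_apply']
    exact Set.mem_range_self _
  have heU := ct7_un_iter hP he0 (k' + 1)
  refine ⟨e0^[k' + 1], heU, fun d => hkR _ (heR d), fun g hg => ?_⟩
  have hpU : Un P (fun v => e0^[k' + 1] (g v)) := ct7_un_comp hP heU hg
  obtain ⟨l, hl, hlR⟩ := ct7_iter (Set.range e0) (fun v => e0^[k' + 1] (g v))
    (honto _ hpU fun v => heR _)
  obtain ⟨l', rfl⟩ : ∃ l', l = l' + 1 := ⟨l - 1, by omega⟩
  refine ⟨fun v => (fun v => e0^[k' + 1] (g v))^[l'] (e0^[k' + 1] v),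
    ct7_un_comp hP (ct7_un_iter hP hpU l') heU, fun d => ?_⟩
  have h1 := hlR _ (heR d)
  rw [Function.iterate_succ_apply] at h1
  exact h1

end H630CD
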