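import Pool.Agent.H630CD.Ops

/-!
# Clones and the Siggers identity
-/

open scoped Classical
open Finset

namespace H630CD

open H630VC H630XR H630SD

theorem not_siggers_of_proj2 {V : Type} (C : Ops V) (h : Proj2 C) : ¬ HasSiggers C := by
  rintro ⟨s, hs, hsig⟩
  obtain ⟨B, c, ⟨v0, hv0, c0⟩, ⟨v1, hv1, c1⟩, hB⟩ := h
  obtain ⟨i, hi⟩ := hB 6 s hs
  have key : ∀ x ∈ B, ∀ y ∈ B, ∀ z ∈ B,
      c ((![x, x, y, y, z, z] : Fin 6 → V) i) = c ((![y, z, x, z, x, y] : Fin 6 → V) i) := by
    intro x hx y hy z hz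
    have h1 : ∀ j : Fin 6, (![x, x, y, y, z, z] : Fin 6 → V) j ∈ B := by
      intro j
      fin_cases j
      · exact hx
      · exact hx
      · exact hy
      · exact hy
      · exact hz
      · exact hz
    have h2 : ∀ j : Fin 6, (![y, z, x, z, x, y] : Fin 6 → V) j ∈ B := by
      intro j
      fin_cases j
      · exact hy
      · exact hz
      · exact hx
      · exact hz
      · exact hx
      · exact hy
    rw [← (hi _ h1).2, ← (hi _ h2).2, hsig x y z]
  have k1 := key v0 hv0 v1 hv1 v1 hv1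
  have k2 := key v0 hv0 v0 hv0 v1 hv1
  fin_cases i
  · change c v0 = c v1 at k1
    rw [c0, c1] at k1
    exact Bool.noConfusion k1
  · change c v0 = c v1 at k1
    rw [c0, c1] at k1
    exact Bool.noConfusion k1
  · change c v1 = c v0 at k1
    rw [c0, c1] at k1
    exact Bool.noConfusion k1
  · change c v0 = c v1 at k2
    rw [c0, c1] at k2
    exact Bool.noConfusion k2
  · change c v1 = c v0 at k1
    rw [c0, c1] at k1
    exact Bool.noConfusion k1
  · change c v1 = c v0 at k2
    rw [c0, c1] at k2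
    exact Bool.noConfusion k2

theorem pol_clone {D ι : Type} {ar : ι → ℕ} (rel : ∀ i, Set (Fin (ar i) → D)) :
    Clone (fun m => {f : (Fin m → D) → D | Pol rel f}) := by
  constructor
  · intro m i j t ht
    exact ht i
  · intro m n f hf g hg j t ht
    exact hf j (fun s' => fun a => g s' fun s => t s a) (fun s' => hg s' j t ht)

/-- the permutation of the positions that swaps the two sides of the Siggers identity -/
def ct8_pi : Fin 6 → Fin 6 := ![2, 4, 0, 5, 1, 3]

/-- the left side of the Siggers identity -/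
def ct8_L {V : Type} (k : Fin 3 → V) : Fin 6 → V := ![k 0, k 0, k 1, k 1, k 2, k 2]

/-- the right side of the Siggers identity -/
def ct8_R {V : Type} (k : Fin 3 → V) : Fin 6 → V := ![k 1, k 2, k 0, k 2, k 0, k 1]

theorem ct8_LR {V : Type} (k : Fin 3 → V) : (fun i => ct8_L k (ct8_pi i)) = ct8_R k := by
  funext i
  fin_cases i <;> rfl

theorem ct8_RL {V : Type} (k : Fin 3 → V) : (fun i => ct8_R k (ct8_pi i)) = ct8_L k := by
  funext i
  fin_cases i <;> rfl

/-- the relation on the ternary operations -/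
def ct8_E {V : Type} (C : Ops V) (s t : (Fin 3 → V) → V) : Prop :=
  ∃ g ∈ C 6, ∀ k : Fin 3 → V, s k = g (ct8_L k) ∧ t k = g (ct8_R k)

/-- the walk along the three projections -/
def ct8_w {V : Type} (i : ℕ) (k : Fin 3 → V) : V := k ⟨i % 3, Nat.mod_lt _ (by norm_num)⟩

theorem pow_proj2_of
    (HL : ∀ {V : Type} [Finite V] (C : Ops V) (E : V → V → Prop), (∀ x y, E x y → E y x) →
      (∀ x, ¬ E x x) → OddWalk E → Pres C E → Idem C → Proj2 C)
    {V : Type} [Finite V] (C : Ops V) (hC : Clone C) (hi : Idem C)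
    (hS : ¬ HasSiggers C) : Proj2 (powOps C (Fin 3 → V)) := by
  refine HL (powOps C (Fin 3 → V)) (ct8_E C) ?_ ?_ ?_ ?_ ?_
  · rintro s t ⟨g, hg, hst⟩
    refine ⟨fun x => g fun i => x (ct8_pi i), ?_, fun k => ⟨?_, ?_⟩⟩
    · exact hC.2 6 6 g hg (fun i x => x (ct8_pi i)) (fun i => hC.1 6 (ct8_pi i))
    · change t k = g fun i => ct8_L k (ct8_pi i)
      rw [ct8_LR]
      exact (hst k).2
    · change s k = g fun i => ct8_R k (ct8_pi i)
      rw [ct8_RL]
      exact (hst k).1
  · rintro s ⟨g, hg, hs⟩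
    refine hS ⟨g, hg, fun x y z => ?_⟩
    have h1 := hs ![x, y, z]
    exact h1.1.symm.trans h1.2
  · refine ⟨1, ct8_w, ?_, rfl⟩
    intro i hi3
    have hcases : i = 0 ∨ i = 1 ∨ i = 2 := by omega
    rcases hcases with rfl | rfl | rfl
    · exact ⟨fun x => x 0, hC.1 6 0, fun k => ⟨rfl, rfl⟩⟩
    · exact ⟨fun x => x 3, hC.1 6 3, fun k => ⟨rfl, rfl⟩⟩
    · exact ⟨fun x => x 4, hC.1 6 4, fun k => ⟨rfl, rfl⟩⟩
  · rintro m f ⟨f0, hf0, hf⟩ x y hxy
    choose g hg hgk using hxy
    refine ⟨fun v => f0 fun i => g i v, hC.2 m 6 f0 hf0 g hg, fun k => ⟨?_, ?_⟩⟩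
    · rw [hf x k]
      have : (fun i => x i k) = fun i => g i (ct8_L k) := funext fun i => (hgk i k).1
      rw [this]
    · rw [hf y k]
      have : (fun i => y i k) = fun i => g i (ct8_R k) := funext fun i => (hgk i k).2
      rw [this]
  · rintro m f ⟨f0, hf0, hf⟩ v
    funext k
    rw [hf]
    exact hi m f0 hf0 (v k)

end H630CD
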