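import Pool.Agent.H630CD.Ops
import Pool.Agent.H630CD.T7

/-!
# Non-bipartite graphs have no Siggers polymorphism
-/

open scoped Classical
open Finset

namespace H630CD

open H630VC H630XR H630SD

theorem oddWalk_of_not_two {V : Type} [Finite V] (G : SimpleGraph V) (h : ¬ G.Colorable 2) :
    OddWalk G.Adj := by
  rw [SimpleGraph.two_colorable_iff_forall_loop_even] at h
  push Not at h
  obtain ⟨u, w, hw⟩ := h
  rw [Nat.not_even_iff_odd] at hw
  obtain ⟨n, hn⟩ := hw
  refine ⟨n, fun i => w.getVert i, fun i hi => w.adj_getVert_succ (by omega), ?_⟩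
  show w.getVert (2 * n + 1) = w.getVert 0
  rw [← hn, SimpleGraph.Walk.getVert_length, SimpleGraph.Walk.getVert_zero]

theorem ct9_pres {V : Type} (G : SimpleGraph V) :
    Pres (fun m => {f : (Fin m → V) → V | Pol (grel G) f}) G.Adj := by
  intro m f hf x y hxy
  exact hf () (fun s => ![x s, y s]) (fun s => hxy s)

theorem graph_no_siggers_of
    (loop_lemma : ∀ {V : Type} [Finite V] (C : Ops V) (E : V → V → Prop),
      (∀ x y, E x y → E y x) → (∀ x, ¬ E x x) → OddWalk E → Pres C E → Idem C → Proj2 C)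
    (coreOps_siggers : ∀ {V : Type} (P : Ops V), Clone P → ∀ e : V → V, IsCore P e →
      (HasSiggers (coreOps P e) ↔ HasSiggers P))
    (not_siggers_of_proj2 : ∀ {V : Type} (C : Ops V), Proj2 C → ¬ HasSiggers C)
    (pol_clone : ∀ {D ι : Type} {ar : ι → ℕ} (rel : ∀ i, Set (Fin (ar i) → D)),
      Clone (fun m => {f : (Fin m → D) → D | Pol rel f}))
    {V : Type} [Finite V] (G : SimpleGraph V) (h : ¬ G.Colorable 2) :
    ¬ Siggers (grel G) := by
  intro hS
  have hP : Clone (fun m => {f : (Fin m → V) → V | Pol (grel G) f}) := pol_clone (grel G)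
  obtain ⟨e, he⟩ := core_exists _ hP
  have heG : ∀ u v, G.Adj u v → G.Adj (e u) (e v) := fun u v huv =>
    ct9_pres G 1 (fun x => e (x 0)) he.1 (fun _ => u) (fun _ => v) (fun _ => huv)
  have h1 : HasSiggers (coreOps (fun m => {f : (Fin m → V) → V | Pol (grel G) f}) e) := by
    rw [coreOps_siggers _ hP e he]
    obtain ⟨s, hs1, hs2⟩ := hS
    exact ⟨s, hs1, hs2⟩
  refine not_siggers_of_proj2 _ ?_ h1
  refine loop_lemma _ (fun a b : {d : V // e d = d} => G.Adj (a : V) (b : V))
    (fun a b hab => hab.symm) (fun a ha => G.loopless.irrefl _ ha) ?_ ?_ ?_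
  · obtain ⟨n, w, hw1, hw2⟩ := oddWalk_of_not_two G h
    refine ⟨n, fun i => ⟨e (w i), he.2.1 (w i)⟩, fun i hi => heG _ _ (hw1 i hi), ?_⟩
    simp only [hw2]
  · rintro m g ⟨⟨f, hf, hg⟩, -⟩ x y hxy
    show G.Adj (g x : V) (g y : V)
    rw [hg, hg]
    exact heG _ _ (ct9_pres G m f hf _ _ hxy)
  · intro m f hf v
    exact hf.2 v

end H630CD
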