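import Pool.Agent.H630CD.T1
import Pool.Agent.H630CD.T3
import Pool.Agent.H630CD.T4
import Pool.Agent.H630CD.T5
import Pool.Agent.H630CD.T6
import Pool.Agent.H630CD.T7
import Pool.Agent.H630CD.T8
import Pool.Agent.H630CD.T9
import Pool.Agent.H630CD.T10
import Pool.Agent.H630CD.T11
import Pool.Agent.H630CD.T2
import Pool.Agent.H630CD.Low

/-! Loop lemma and the data of the gadget, assembled (helper630) -/

open scoped Classical
open Finset

namespace H630CD

open H630VC H630XR H630SD

theorem cube_proj {V : Type} [Finite V] (C : Ops V) (E : V → V → Prop)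
    (hs : ∀ x y, E x y → E y x) (hl : ∀ x, ¬ E x x) (hdf : DF E) (ht : Tri E)
    (hp : Pres C E) (hi : Idem C) : Proj2 C :=
  cube_proj_of (fun E hs hdf h hh => hom_cube E hs hdf h hh) C E hs hl hdf ht hp hi

/-- **Loop lemma** (Bulatov): idempotent operations on a finite set that preserve a symmetric relation
without loops and with a closed walk of odd length act as projections on a set with two classes. -/
theorem loop_lemma {V : Type} [Finite V] (C : Ops V) (E : V → V → Prop)
    (hs : ∀ x y, E x y → E y x) (hl : ∀ x, ¬ E x x) (ho : OddWalk E)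
    (hp : Pres C E) (hi : Idem C) : Proj2 C :=
  loop_lemma_of (fun _ _ => cube_proj) (fun _ => proj2_sub) (fun _ => subOps_idem)
    (fun _ => subOps_pres) (fun _ => proj2_quot) (fun _ => quoOps_idem) (fun _ => quoOps_pres)
    (fun _ => tri_or_bigger) (fun _ _ => tri_steps) C E hs hl ho hp hi

theorem graph_no_siggers {V : Type} [Finite V] (G : SimpleGraph V) (h : ¬ G.Colorable 2) :
    ¬ Siggers (grel G) :=
  graph_no_siggers_of (fun C E => loop_lemma C E) (fun P hP e he => coreOps_siggers P hP e he)
    (fun C => not_siggers_of_proj2 C) (fun rel => pol_clone rel) G h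

theorem pow_proj2 {V : Type} [Finite V] (C : Ops V) (hC : Clone C) (hi : Idem C)
    (hS : ¬ HasSiggers C) : Proj2 (powOps C (Fin 3 → V)) :=
  pow_proj2_of (fun C E => loop_lemma C E) C hC hi hS

/-- the data of the gadget -/
theorem dec_data {D ι : Type} [Finite D] {ar : ι → ℕ} {rel : ∀ i, Set (Fin (ar i) → D)}
    (hS : ¬ Siggers rel) :
    ∃ (K : Type) (a0 a1 : K → D) (dec : (D → D) → (K → D) → Bool),
      ∀ f : (Fin 8 → D) → D, Pol rel f → ∃ i : Fin 8, ∀ cl : Fin 8 → Bool,
        dec (fun d => f fun _ => d) (fun x => f fun s => if cl s = true then a1 x else a0 x) =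
          cl i := by
  set P : Ops D := fun m => {f : (Fin m → D) → D | Pol rel f} with hP
  have hc : Clone P := pol_clone rel
  obtain ⟨e, he⟩ := core_exists P hc
  have hC := coreOps_clone P hc e he
  have hI := coreOps_idem P e
  have hns : ¬ HasSiggers (coreOps P e) := fun h => hS ((coreOps_siggers P hc e he).1 h)
  obtain ⟨B, cl, ⟨A0, hA0, hc0⟩, ⟨A1, hA1, hc1⟩, hpr⟩ := pow_proj2 (coreOps P e) hC hI hns
  obtain ⟨he1, he2, he3⟩ := he
  choose! g' hg1 hg2 using he3
  refine ⟨Fin 3 → {d : D // e d = d}, fun y => A0 y, fun y => A1 y,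
    fun g v => cl fun y => ⟨e (g' g (v y)), he2 _⟩, fun f hf => ?_⟩
  -- the normalised operation
  have hun : Un P (fun d => f fun _ => d) := by
    have h1 := hc.2 8 1 f hf (fun _ x => x 0) (fun _ => hc.1 1 0)
    exact h1
  set G : D → D := g' (fun d => f fun _ => d) with hG
  have hGun : Un P G := hg1 _ hun
  have hGf : ∀ d, G (f fun _ => e d) = e d := hg2 _ hun
  let F : (Fin 8 → {d : D // e d = d}) → {d : D // e d = d} := fun x =>
    ⟨e (G (f fun i => x i)), he2 _⟩
  have hF : F ∈ coreOps P e 8 := by
    refine ⟨⟨fun x => G (f x), ?_, fun x => rfl⟩, fun v => ?_⟩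
    · exact hc.2 1 8 (fun x => G (x 0)) hGun (fun _ => f) (fun _ => hf)
    · apply Subtype.ext
      show e (G (f fun _ => (v : D))) = v
      have h1 := hGf (v : D)
      rw [v.2] at h1
      rw [h1, v.2]
  have hFp : (fun (x : Fin 8 → (Fin 3 → {d : D // e d = d}) → {d : D // e d = d}) y =>
      F fun i => x i y) ∈ powOps (coreOps P e) (Fin 3 → {d : D // e d = d}) 8 :=
    ⟨F, hF, fun x y => rfl⟩
  obtain ⟨i, hi⟩ := hpr 8 _ hFp
  refine ⟨i, fun c => ?_⟩
  have h2 := (hi (fun s => if c s = true then A1 else A0) (fun j => by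
    by_cases h : c j = true
    · rw [if_pos h]; exact hA1
    · rw [if_neg h]; exact hA0)).2
  have e1 : (fun y => F fun s => (if c s = true then A1 else A0) y) =
      fun y => (⟨e (G (f fun s => if c s = true then (A1 y : D) else A0 y)), he2 _⟩ :
        {d : D // e d = d}) := by
    funext y
    apply Subtype.ext
    show e (G (f fun s => (((if c s = true then A1 else A0) y : {d : D // e d = d}) : D))) = _
    have e2 : (fun s => (((if c s = true then A1 else A0) y : {d : D // e d = d}) : D)) =
        fun s => if c s = true then (A1 y : D) else A0 y := by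
      funext s
      by_cases h : c s = true
      · rw [if_pos h, if_pos h]
      · rw [if_neg h, if_neg h]
    rw [e2]
  have h3 : cl (fun y => F fun s => (if c s = true then A1 else A0) y) =
      cl (if c i = true then A1 else A0) := h2
  rw [e1] at h3
  refine h3.trans ?_
  cases h : c i
  · simpa using hc0
  · simpa using hc1


end H630CD
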