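import Pool.Agent.H630SD.Model

/-!
# Constraint satisfaction problems over finite domains and circuits: the definitions

`Con`, `conInputs`, `conBits` are those of `H630SD.Model` (they do not depend on the domain).
-/

open scoped Classical
open Finset

namespace H630CD

open H630VC H630XR H630SD

/-- some assignment of values in `D` satisfies all constraints in `F` -/
def Sat {D ι V : Type} {ar : ι → ℕ} (rel : ∀ i, Set (Fin (ar i) → D)) (F : Set (Con ar V)) :
    Prop := ∃ x : V → D, ∀ c ∈ F, (fun j => x (c.2 j)) ∈ rel c.1

/-- `f` is a polymorphism of the language: all its relations are closed under `f` -/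
def Pol {D ι : Type} {ar : ι → ℕ} (rel : ∀ i, Set (Fin (ar i) → D)) {r : ℕ}
    (f : (Fin r → D) → D) : Prop :=
  ∀ i, ∀ t : Fin r → Fin (ar i) → D, (∀ s, t s ∈ rel i) → (fun j => f fun s => t s j) ∈ rel i

/-- the language has a Siggers polymorphism: `s(x,x,y,y,z,z) = s(y,z,x,z,x,y)` -/
def Siggers {D ι : Type} {ar : ι → ℕ} (rel : ∀ i, Set (Fin (ar i) → D)) : Prop :=
  ∃ s : (Fin 6 → D) → D, Pol rel s ∧ ∀ x y z : D, s ![x, x, y, y, z, z] = s ![y, z, x, z, x, y]

/-- the family `f r`, `r ∈ R`, of functions decides the satisfiability of the instances over `V`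
with advantage `ξ`: on every instance at least a fraction `1/2 + ξ` of the values is right, that is
less than one if the instance is satisfiable and at least one otherwise -/
def DecidesSat {D ι V R : Type} [Fintype R] {ar : ι → ℕ} (rel : ∀ i, Set (Fin (ar i) → D)) (ξ : ℝ)
    (f : R → Set (Con ar V) → ℝ) : Prop :=
  ∀ F : Set (Con ar V), (Sat rel F →
      (1 / 2 + ξ) * Fintype.card R ≤ (univ.filter fun r => f r F < 1).card) ∧
    (¬ Sat rel F → (1 / 2 + ξ) * Fintype.card R ≤ (univ.filter fun r => 1 ≤ f r F).card)

/-- the language of a graph: one binary relation, adjacency; an instance over `V` is a set of pairs of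
elements of `V`, to be mapped to adjacent vertices -/
def grel {V : Type} (G : SimpleGraph V) (i : Unit) : Set (Fin ((fun _ : Unit => 2) i) → V) :=
  {t | G.Adj (t 0) (t 1)}

end H630CD
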