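import Pool.Agent.H630CD.Ops

/-!
# Homomorphisms from the powers of the triangle
-/

open scoped Classical
open Finset

namespace H630CD

open H630VC H630XR H630SD

/-- a value different from `a` and from `b` -/
def ct1_third (a b : Fin 3) : Fin 3 := if a = b then a + 1 else -(a + b)

theorem ct1_third_ne_left (a b : Fin 3) : ct1_third a b ≠ a := by
  revert a b; decide

theorem ct1_third_ne_right (a b : Fin 3) : ct1_third a b ≠ b := by
  revert a b; decide

theorem ct1_succ1 (a : Fin 3) : a ≠ a + 1 := by revert a; decide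
theorem ct1_succ2 (a : Fin 3) : a ≠ a + 2 := by revert a; decide
theorem ct1_succ12 (a : Fin 3) : a + 1 ≠ a + 2 := by revert a; decide

section

variable {V ι : Type} (E : V → V → Prop) (hs : ∀ x y, E x y → E y x)
    (hdf : DF E) (h : (ι → Fin 3) → V) (hh : ∀ x y, (∀ i, x i ≠ y i) → E (h x) (h y))

include hdf hh

theorem ct1_step (x y x' y' : ι → Fin 3) (hxy : h x = h y)
    (H : ∀ i, (x i ≠ y i ∧ x' i = x i ∧ y' i = y i) ∨ (x i = y i ∧ x' i = y' i ∧ x' i ≠ x i)) :
    h x' = h y' := by
  set u : ι → Fin 3 := fun i => if x i = y i then ct1_third (x i) (x' i) else ct1_third (x i) (y i)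
    with hu
  have hui : ∀ i, (x i = y i → u i = ct1_third (x i) (x' i)) ∧
      (x i ≠ y i → u i = ct1_third (x i) (y i)) := by
    intro i
    refine ⟨fun hi => ?_, fun hi => ?_⟩
    · rw [hu]; exact if_pos hi
    · rw [hu]; exact if_neg hi
  have h1 : E (h x) (h u) := by
    apply hh
    intro i
    rcases H i with ⟨a, b, c⟩ | ⟨a, b, c⟩
    · rw [(hui i).2 a]; exact (ct1_third_ne_left _ _).symm
    · rw [(hui i).1 a]; exact (ct1_third_ne_left _ _).symm
  have h2 : E (h y') (h x) := by
    apply hh
    intro i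
    rcases H i with ⟨a, b, c⟩ | ⟨a, b, c⟩
    · rw [c]; exact a.symm
    · rw [← b]; exact c
  have h3 : E (h y') (h u) := by
    apply hh
    intro i
    rcases H i with ⟨a, b, c⟩ | ⟨a, b, c⟩
    · rw [(hui i).2 a, c]; exact (ct1_third_ne_right _ _).symm
    · rw [(hui i).1 a, ← b]; exact (ct1_third_ne_right _ _).symm
  have h4 : E (h x') (h y) := by
    apply hh
    intro i
    rcases H i with ⟨a, b, c⟩ | ⟨a, b, c⟩
    · rw [b]; exact a
    · rw [← a]; exact c
  have h5 : E (h x') (h u) := by
    apply hh
    intro i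
    rcases H i with ⟨a, b, c⟩ | ⟨a, b, c⟩
    · rw [(hui i).2 a, b]; exact (ct1_third_ne_left _ _).symm
    · rw [(hui i).1 a]; exact (ct1_third_ne_right _ _).symm
  rw [← hxy] at h4
  exact hdf (h x) (h u) (h x') (h y') h1 h4 h5 h2 h3

theorem ct1_lemA (x y x' y' : ι → Fin 3) (hxy : h x = h y)
    (H1 : ∀ i, x i ≠ y i → x' i = x i ∧ y' i = y i) (H2 : ∀ i, x i = y i → x' i = y' i) :
    h x' = h y' := by
  have key : h (fun i => if x i = y i then ct1_third (x i) (x' i) else x i) =
      h (fun i => if x i = y i then ct1_third (x i) (x' i) else y i) := by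
    apply ct1_step E hdf h hh x y _ _ hxy
    intro i
    by_cases hi : x i = y i
    · right
      refine ⟨hi, ?_, ?_⟩
      · rw [if_pos hi, if_pos hi]
      · rw [if_pos hi]; exact ct1_third_ne_left _ _
    · left
      refine ⟨hi, ?_, ?_⟩
      · rw [if_neg hi]
      · rw [if_neg hi]
  apply ct1_step E hdf h hh _ _ x' y' key
  intro i
  by_cases hi : x i = y i
  · right
    refine ⟨?_, H2 i hi, ?_⟩
    · show (if x i = y i then ct1_third (x i) (x' i) else x i) =
        (if x i = y i then ct1_third (x i) (x' i) else y i)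
      rw [if_pos hi, if_pos hi]
    · show x' i ≠ (if x i = y i then ct1_third (x i) (x' i) else x i)
      rw [if_pos hi]; exact (ct1_third_ne_right _ _).symm
  · left
    refine ⟨?_, ?_, ?_⟩
    · show (if x i = y i then ct1_third (x i) (x' i) else x i) ≠
        (if x i = y i then ct1_third (x i) (x' i) else y i)
      rw [if_neg hi, if_neg hi]; exact hi
    · show x' i = (if x i = y i then ct1_third (x i) (x' i) else x i)
      rw [if_neg hi]; exact (H1 i hi).1
    · show y' i = (if x i = y i then ct1_third (x i) (x' i) else y i)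
      rw [if_neg hi]; exact (H1 i hi).2

/-- on the coordinates where `x` and `y` differ the value is `a i`, on the other coordinates `c i` -/
def ct1_mix (x y a c : ι → Fin 3) : ι → Fin 3 := fun i => if x i = y i then c i else a i

omit hdf hh in
theorem ct1_mix_eq (x y a c : ι → Fin 3) (i : ι) (hi : x i = y i) : ct1_mix x y a c i = c i :=
  if_pos hi

omit hdf hh in
theorem ct1_mix_ne (x y a c : ι → Fin 3) (i : ι) (hi : x i ≠ y i) : ct1_mix x y a c i = a i :=
  if_neg hi

theorem ct1_P (x y : ι → Fin 3) (hxy : h x = h y) (c : ι → Fin 3) :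
    h (ct1_mix x y x c) = h (ct1_mix x y y c) := by
  apply ct1_lemA E hdf h hh x y _ _ hxy
  · intro i hi
    exact ⟨ct1_mix_ne x y x c i hi, ct1_mix_ne x y y c i hi⟩
  · intro i hi
    rw [ct1_mix_eq x y x c i hi, ct1_mix_eq x y y c i hi]

omit hdf in
theorem ct1_adj (x y a b c d : ι → Fin 3) (hab : ∀ i, x i ≠ y i → a i ≠ b i)
    (hcd : ∀ i, x i = y i → c i ≠ d i) : E (h (ct1_mix x y a c)) (h (ct1_mix x y b d)) := by
  apply hh
  intro i
  by_cases hi : x i = y i
  · rw [ct1_mix_eq x y a c i hi, ct1_mix_eq x y b d i hi]; exact hcd i hi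
  · rw [ct1_mix_ne x y a c i hi, ct1_mix_ne x y b d i hi]; exact hab i hi

theorem ct1_key (x y : ι → Fin 3) (hxy : h x = h y) (z c c' c'' s : ι → Fin 3)
    (h1 : ∀ i, c i ≠ c' i) (h2 : ∀ i, c i ≠ c'' i) (h3 : ∀ i, c' i ≠ c'' i)
    (e1 : h (ct1_mix x y s c') = h (ct1_mix x y x c'))
    (e2 : h (ct1_mix x y s c'') = h (ct1_mix x y x c''))
    (hz : ∀ i, x i ≠ y i → z i ≠ s i) :
    h (ct1_mix x y z c) = h (ct1_mix x y x c) := by
  have a1 : E (h (ct1_mix x y x c')) (h (ct1_mix x y x c'')) := by
    rw [ct1_P E hdf h hh x y hxy c'']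
    exact ct1_adj E h hh x y x y c' c'' (fun i hi => hi) (fun i _ => h3 i)
  have a2 : E (h (ct1_mix x y x c)) (h (ct1_mix x y x c')) := by
    rw [ct1_P E hdf h hh x y hxy c']
    exact ct1_adj E h hh x y x y c c' (fun i hi => hi) (fun i _ => h1 i)
  have a3 : E (h (ct1_mix x y x c)) (h (ct1_mix x y x c'')) := by
    rw [ct1_P E hdf h hh x y hxy c'']
    exact ct1_adj E h hh x y x y c c'' (fun i hi => hi) (fun i _ => h2 i)
  have a4 : E (h (ct1_mix x y z c)) (h (ct1_mix x y x c')) := by
    rw [← e1]
    exact ct1_adj E h hh x y z s c c' hz (fun i _ => h1 i)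
  have a5 : E (h (ct1_mix x y z c)) (h (ct1_mix x y x c'')) := by
    rw [← e2]
    exact ct1_adj E h hh x y z s c c'' hz (fun i _ => h2 i)
  exact hdf _ _ _ _ a1 a4 a5 a2 a3

theorem ct1_step1 (x y : ι → Fin 3) (hxy : h x = h y) (z c : ι → Fin 3)
    (hz : ∀ i, x i ≠ y i → z i ≠ x i) :
    h (ct1_mix x y z c) = h (ct1_mix x y x c) :=
  ct1_key E hdf h hh x y hxy z c (fun i => c i + 1) (fun i => c i + 2) x
    (fun _ => ct1_succ1 _) (fun _ => ct1_succ2 _) (fun _ => ct1_succ12 _) rfl rfl hz

theorem ct1_step2 (x y : ι → Fin 3) (hxy : h x = h y) (z c : ι → Fin 3) :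
    h (ct1_mix x y z c) = h (ct1_mix x y x c) :=
  ct1_key E hdf h hh x y hxy z c (fun i => c i + 1) (fun i => c i + 2)
    (fun i => ct1_third (z i) (x i))
    (fun _ => ct1_succ1 _) (fun _ => ct1_succ2 _) (fun _ => ct1_succ12 _)
    (ct1_step1 E hdf h hh x y hxy _ _ fun _ _ => ct1_third_ne_right _ _)
    (ct1_step1 E hdf h hh x y hxy _ _ fun _ _ => ct1_third_ne_right _ _)
    (fun _ _ => (ct1_third_ne_left _ _).symm)

theorem ct1_indep (x y : ι → Fin 3) (hxy : h x = h y) (z w : ι → Fin 3)
    (hzw : ∀ i, x i = y i → z i = w i) : h z = h w := by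
  have hz : z = ct1_mix x y z z := by
    funext i
    by_cases hi : x i = y i
    · rw [ct1_mix_eq x y z z i hi]
    · rw [ct1_mix_ne x y z z i hi]
  have hw : w = ct1_mix x y w z := by
    funext i
    by_cases hi : x i = y i
    · rw [ct1_mix_eq x y w z i hi, hzw i hi]
    · rw [ct1_mix_ne x y w z i hi]
  calc h z = h (ct1_mix x y z z) := congrArg h hz
    _ = h (ct1_mix x y x z) := ct1_step2 E hdf h hh x y hxy z z
    _ = h (ct1_mix x y w z) := (ct1_step2 E hdf h hh x y hxy w z).symm
    _ = h w := (congrArg h hw).symm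

end

/-- a homomorphism from a power of the triangle to a graph without diamonds factors through a
projection -/
theorem hom_cube {V ι : Type} [Finite ι] (E : V → V → Prop) (hs : ∀ x y, E x y → E y x)
    (hdf : DF E) (h : (ι → Fin 3) → V) (hh : ∀ x y, (∀ i, x i ≠ y i) → E (h x) (h y)) :
    ∃ I : Set ι, ∀ x y, h x = h y ↔ ∀ i ∈ I, x i = y i := by
  refine ⟨{i | ∃ x v, h (Function.update x i v) ≠ h x}, fun x y => ⟨?_, ?_⟩⟩
  · rintro hxy i ⟨x0, v, hv⟩
    by_contra hi
    apply hv
    apply ct1_indep E hdf h hh x y hxy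
    intro j hj
    have hji : j ≠ i := by
      rintro rfl
      exact hi hj
    exact Function.update_of_ne hji _ _
  · intro hxy
    have _ := Fintype.ofFinite ι
    have key : ∀ S : Finset ι, h (fun i => if i ∈ S then y i else x i) = h x := by
      intro S
      induction S using Finset.induction_on with
      | empty => simp
      | insert a S ha ih =>
        have e : (fun i => if i ∈ insert a S then y i else x i) =
            Function.update (fun i => if i ∈ S then y i else x i) a (y a) := by
          funext i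
          by_cases hi : i = a
          · subst hi
            rw [Function.update_self, if_pos (Finset.mem_insert_self _ _)]
          · rw [Function.update_of_ne hi]
            by_cases hS : i ∈ S
            · rw [if_pos hS, if_pos (Finset.mem_insert_of_mem hS)]
            · rw [if_neg hS, if_neg]
              intro h'
              rcases Finset.mem_insert.1 h' with h' | h'
              · exact hi h'
              · exact hS h'
        rw [e, ← ih]
        by_contra hne
        have haI : a ∈ {i | ∃ x v, h (Function.update x i v) ≠ h x} := ⟨_, _, hne⟩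
        have hay := hxy a haI
        apply hne
        rw [← hay]
        have : (fun i => if i ∈ S then y i else x i) a = x a := if_neg ha
        rw [← this, Function.update_eq_self]
    have h1 := key Finset.univ
    have h2 : (fun i => if i ∈ (Finset.univ : Finset ι) then y i else x i) = y := by
      funext i
      exact if_pos (Finset.mem_univ i)
    rw [h2] at h1
    exact h1.symm

end H630CD
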