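import Pool.Agent.H630CD.T10
import Pool.Agent.H630CD.GModel

/-! The upper bound for graphs as inputs (helper630) -/

open scoped Classical
open Finset

namespace H630CD

open H630VC H630XR H630SD

theorem mprog_comap {I J : Type*} {inp : Set (I → ℝ)} {inp' : Set (J → ℝ)} (ψ : J → I)
    (hψ : ∀ f ∈ inp, (fun x => f (ψ x)) ∈ inp') {l : List (I → ℝ)} (h : MProg inp l) :
    MProg inp' (l.map fun f => fun x => f (ψ x)) := by
  induction h with
  | nil => exact MProg.nil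
  | input _ hf ih => exact MProg.input ih (hψ _ hf)
  | and _ hf hg ih =>
    exact MProg.and ih (List.mem_map.2 ⟨_, hf, rfl⟩) (List.mem_map.2 ⟨_, hg, rfl⟩)
  | or _ hf hg ih =>
    exact MProg.or ih (List.mem_map.2 ⟨_, hf, rfl⟩) (List.mem_map.2 ⟨_, hg, rfl⟩)

/-- bipartite graphs: monotone circuits of polynomial size -/
theorem upper_graph {V : Type} [Finite V] (G : SimpleGraph V) (h : G.Colorable 2) :
    ∃ C : ℕ, ∀ n : ℕ, ∃ l : List (SimpleGraph (Fin n) → ℝ),
      MProg (adjBits n) l ∧ l.length ≤ C * (n + 1) ^ C ∧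
      (fun H => if Nonempty (H →g G) then (0 : ℝ) else 1) ∈ l := by
  obtain ⟨C, hC⟩ := graph_upper G h
  refine ⟨C, fun n => ?_⟩
  obtain ⟨l, h1, h2, h3⟩ := hC n
  let ψ : SimpleGraph (Fin n) → Set (Con (fun _ : Unit => 2) (Fin n)) := fun H =>
    {c | H.Adj (c.2 0) (c.2 1)}
  refine ⟨l.map fun f => fun H => f (ψ H), mprog_comap ψ ?_ h1, by rw [List.length_map]; exact h2,
    List.mem_map.2 ⟨_, h3, ?_⟩⟩
  · rintro f (⟨c, rfl⟩ | rfl | rfl)
    · exact Or.inl ⟨c.2 0, c.2 1, rfl⟩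
    · exact Or.inr (Or.inl rfl)
    · exact Or.inr (Or.inr rfl)
  · funext H
    have e1 : Sat (grel G) (ψ H) ↔ Nonempty (H →g G) := by
      constructor
      · rintro ⟨x, hx⟩
        refine ⟨⟨x, fun {u v} huv => ?_⟩⟩
        exact hx ⟨(), ![u, v]⟩ huv
      · rintro ⟨φ⟩
        exact ⟨φ, fun c hc => φ.map_adj hc⟩
    show (if Sat (grel G) (ψ H) then (0 : ℝ) else 1) = if Nonempty (H →g G) then (0 : ℝ) else 1
    by_cases h5 : Nonempty (H →g G)
    · rw [if_pos h5, if_pos (e1.2 h5)]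
    · rw [if_neg h5, if_neg fun h6 => h5 (e1.1 h6)]

end H630CD
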